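import Mathlib

/-!
# Projectional skeletons, induced subspaces and `Σ`-subspaces
-/

open Set

namespace Pool.Agent.SkelFC

/-- A projectional skeleton on the normed space `X` over `𝕜`, indexed by the partially ordered
set `Γ`: a family of bounded linear projections `P s`, where `Γ` is up-directed and every strictly
increasing sequence of indices has a supremum, such that the ranges are separable and cover `X`,
`s ≤ t` implies `P s = P s ∘ P t = P t ∘ P s`, and the range of `P (sup u n)` is the closure of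
the union of the ranges of the `P (u n)`, for strictly increasing `u`. -/
structure ProjSkeleton (𝕜 : Type*) [RCLike 𝕜] (X : Type*) [NormedAddCommGroup X]
    [NormedSpace 𝕜 X] (Γ : Type*) [PartialOrder Γ] where
  /-- the projections -/
  P : Γ → X →L[𝕜] X
  proj : ∀ s x, P s (P s x) = P s x
  directed : ∀ s t : Γ, ∃ r, s ≤ r ∧ t ≤ r
  exists_sup : ∀ u : ℕ → Γ, StrictMono u → ∃ s, IsLUB (range u) s
  separable : ∀ s, TopologicalSpace.IsSeparable (range (P s))
  union : ⋃ s, range (P s) = univ
  compat : ∀ s t, s ≤ t → P s = (P s).comp (P t) ∧ P s = (P t).comp (P s)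
  closure_union : ∀ u : ℕ → Γ, StrictMono u → ∀ s, IsLUB (range u) s →
    range (P s) = closure (⋃ n, range (P (u n)))

variable {𝕜 : Type*} [RCLike 𝕜] {X : Type*} [NormedAddCommGroup X] [NormedSpace 𝕜 X]
variable {Γ : Type*} [PartialOrder Γ]

namespace ProjSkeleton

theorem comp_left (S : ProjSkeleton 𝕜 X Γ) {s t : Γ} (h : s ≤ t) (x : X) : S.P s (S.P t x) = S.P s x := by
  have := congrArg (fun f => f x) (S.compat s t h).1
  exact this.symm

theorem nonempty (S : ProjSkeleton 𝕜 X Γ) : Nonempty Γ := by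
  have h : (0 : X) ∈ ⋃ s, range (S.P s) := by rw [S.union]; trivial
  obtain ⟨s, _⟩ := mem_iUnion.mp h
  exact ⟨s⟩

/-- The subspace of the dual induced by the skeleton, `⋃ s, (P s)^* X^*`. -/
def induced (S : ProjSkeleton 𝕜 X Γ) : Submodule 𝕜 (X →L[𝕜] 𝕜) where
  carrier := {f | ∃ s, ∃ g : X →L[𝕜] 𝕜, f = g.comp (S.P s)}
  add_mem' := by
    rintro f₁ f₂ ⟨s₁, g₁, rfl⟩ ⟨s₂, g₂, rfl⟩
    obtain ⟨r, h1, h2⟩ := S.directed s₁ s₂
    refine ⟨r, g₁.comp (S.P s₁) + g₂.comp (S.P s₂), ?_⟩
    ext x
    simp only [add_apply, ContinuousLinearMap.comp_apply]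
    rw [S.comp_left h1, S.comp_left h2]
  zero_mem' := by
    obtain ⟨s⟩ := S.nonempty
    exact ⟨s, 0, by ext x; simp⟩
  smul_mem' := by
    rintro c f ⟨s, g, rfl⟩
    exact ⟨s, c • g, by ext x; simp⟩

end ProjSkeleton

/-- `D` is a `Σ`-subspace of the dual of `X`: there is a set `M ⊆ X` whose closed linear span is
`X` such that `D` consists of the functionals which are nonzero at only countably many points of
`M`. -/
def IsSigmaSubspace (D : Set (X →L[𝕜] 𝕜)) : Prop :=
  ∃ M : Set X, closure (Submodule.span 𝕜 M : Set X) = univ ∧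
    D = {f : X →L[𝕜] 𝕜 | {m | m ∈ M ∧ f m ≠ 0}.Countable}

end Pool.Agent.SkelFC
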