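import Mathlib
import Pool.Agent.SkelFC.Defs

/-!
# Finite-codimensional subspaces induced by projectional skeletons are `Σ`-subspaces

Let `X` be a (real or complex) Banach space and let `D` be the subspace of the dual of `X` induced
by a projectional skeleton on `X`.  We prove that if `D` has finite codimension, then `D` is a
`Σ`-subspace.

Outline of the proof.  After passing to a cofinal part of the index set we may assume that the
projections are uniformly bounded.  Every directed set `T` of indices then gives a projection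
`PT T = lim P_t`, and `f ∘ PT T ∈ D` for all `f` whenever `T` is countable.

* `tight`: if `T` is the union of an increasing chain `T_α` (`α < δ`) of uncountable cofinality and
  `z ∈ D` satisfies `z ∘ PT T = z` and `z ∘ PT T_α ∈ D` for all `α < δ`, then `z = z ∘ PT T_β` for
  some `β < δ`.
* `ext_om1`: a finite dimensional space of functionals meeting `D` only in `0` (and living on `T`)
  is detected by a directed subset of `T` of cardinality at most `ℵ₁`.
* `step_three`: there is a directed set `Ti` of cardinality at most `ℵ₁` such that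
  `f ∘ PT T ∈ D` for all `f ∈ D` and all directed `T ⊇ Ti`.  Finite codimension is used here, by a
  compactness argument in the quotient by `D`.
* `good_all`: transfinite induction on the cardinality of `T`, which produces the set `M`.
-/

open Filter Topology Set

universe u v w

namespace Pool.Agent.SkelFC

variable {𝕜 : Type*} [RCLike 𝕜] {X : Type*} [NormedAddCommGroup X] [NormedSpace 𝕜 X]
variable {Γ : Type*} [PartialOrder Γ]

namespace ProjSkeleton

theorem comp_right (S : ProjSkeleton 𝕜 X Γ) {s t : Γ} (h : s ≤ t) (x : X) : S.P t (S.P s x) = S.P s x := by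
  have := congrArg (fun f => f x) (S.compat s t h).2
  exact this.symm

theorem exists_fix (S : ProjSkeleton 𝕜 X Γ) (x : X) : ∃ s, S.P s x = x := by
  have h : x ∈ ⋃ s, range (S.P s) := by rw [S.union]; trivial
  obtain ⟨s, y, hy⟩ := mem_iUnion.mp h
  exact ⟨s, by rw [← hy, S.proj]⟩

theorem fix_mono (S : ProjSkeleton 𝕜 X Γ) {s t : Γ} (h : s ≤ t) {x : X} (hx : S.P s x = x) : S.P t x = x := by
  rw [← hx, S.comp_right h]

theorem mem_range_iff (S : ProjSkeleton 𝕜 X Γ) (s : Γ) (x : X) : x ∈ range (S.P s) ↔ S.P s x = x := by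
  constructor
  · rintro ⟨y, rfl⟩; exact S.proj s y
  · intro h; exact ⟨x, h⟩

theorem mem_induced (S : ProjSkeleton 𝕜 X Γ) (f : X →L[𝕜] 𝕜) : f ∈ S.induced ↔ ∃ s, ∀ x, f (S.P s x) = f x := by
  constructor
  · rintro ⟨s, g, rfl⟩
    exact ⟨s, fun x => by simp only [ContinuousLinearMap.comp_apply]; rw [S.proj]⟩
  · rintro ⟨s, h⟩
    exact ⟨s, f, by ext x; exact (h x).symm⟩

/-- monotone sequences -/
theorem subseq (u : ℕ → Γ) (hu : Monotone u) :
    (∃ N, ∀ n, N ≤ n → u n = u N) ∨ ∃ φ : ℕ → ℕ, StrictMono φ ∧ StrictMono (u ∘ φ) := by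
  by_cases h : ∃ N, ∀ n, N ≤ n → u n = u N
  · exact Or.inl h
  · right
    have h' : ∀ N, ∃ n, N < n ∧ u N < u n := by
      intro N
      by_contra hcon
      apply h
      refine ⟨N, fun n hn => ?_⟩
      rcases eq_or_lt_of_le hn with rfl | hlt
      · rfl
      · by_contra hne
        exact hcon ⟨n, hlt, lt_of_le_of_ne (hu hn) (Ne.symm hne)⟩
    choose g hg using h'
    let φ : ℕ → ℕ := fun k => Nat.rec 0 (fun _ m => g m) k
    have hφ : ∀ k, φ (k + 1) = g (φ k) := fun k => rfl
    refine ⟨φ, strictMono_nat_of_lt_succ fun k => ?_, strictMono_nat_of_lt_succ fun k => ?_⟩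
    · rw [hφ]; exact (hg (φ k)).1
    · simp only [Function.comp_apply]
      rw [hφ]; exact (hg (φ k)).2

theorem lub_subseq (u : ℕ → Γ) (hu : Monotone u) (φ : ℕ → ℕ) (hφ : StrictMono φ) (s : Γ) :
    IsLUB (range u) s ↔ IsLUB (range (u ∘ φ)) s := by
  have h : upperBounds (range u) = upperBounds (range (u ∘ φ)) := by
    ext b
    constructor
    · rintro hb _ ⟨n, rfl⟩
      exact hb ⟨φ n, rfl⟩
    · rintro hb _ ⟨n, rfl⟩
      exact (hu (hφ.le_apply)).trans (hb ⟨n, rfl⟩)
  unfold IsLUB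
  rw [h]

theorem exists_sup_mono (S : ProjSkeleton 𝕜 X Γ) (u : ℕ → Γ) (hu : Monotone u) : ∃ s, IsLUB (range u) s := by
  rcases subseq u hu with ⟨N, hN⟩ | ⟨φ, hφ, hφu⟩
  · refine ⟨u N, ?_, ?_⟩
    · rintro _ ⟨n, rfl⟩
      rcases le_total n N with h | h
      · exact hu h
      · exact (hN n h).le
    · intro b hb
      exact hb ⟨N, rfl⟩
  · obtain ⟨s, hs⟩ := S.exists_sup _ hφu
    exact ⟨s, (lub_subseq u hu φ hφ s).mpr hs⟩

theorem range_subset_closure (S : ProjSkeleton 𝕜 X Γ) (u : ℕ → Γ) (hu : Monotone u) (s : Γ) (hs : IsLUB (range u) s) :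
    range (S.P s) ⊆ closure (⋃ n, range (S.P (u n))) := by
  rcases subseq u hu with ⟨N, hN⟩ | ⟨φ, hφ, hφu⟩
  · have hsN : s = u N := by
      apply le_antisymm
      · apply hs.2
        rintro _ ⟨n, rfl⟩
        rcases le_total n N with h | h
        · exact hu h
        · exact (hN n h).le
      · exact hs.1 ⟨N, rfl⟩
    rw [hsN]
    exact (subset_iUnion (fun n => range (S.P (u n))) N).trans subset_closure
  · rw [S.closure_union _ hφu s ((lub_subseq u hu φ hφ s).mp hs)]
    apply _root_.closure_mono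
    apply iUnion_subset
    intro n
    exact subset_iUnion (fun n => range (S.P (u n))) (φ n)

/-- convergence along increasing sequences -/
theorem tendsto_seq (S : ProjSkeleton 𝕜 X Γ) {C : ℝ} (u : ℕ → Γ) (hu : Monotone u) (hC : ∀ n, ‖S.P (u n)‖ ≤ C)
    (s : Γ) (hs : IsLUB (range u) s) (x : X) :
    Tendsto (fun n => S.P (u n) x) atTop (𝓝 (S.P s x)) := by
  have hC0 : 0 ≤ C := (norm_nonneg _).trans (hC 0)
  rw [Metric.tendsto_atTop]
  intro ε hε
  have hmem : S.P s x ∈ closure (⋃ n, range (S.P (u n))) := S.range_subset_closure u hu s hs ⟨x, rfl⟩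
  rw [Metric.mem_closure_iff] at hmem
  obtain ⟨y, hy, hyd⟩ := hmem (ε / (C + 1)) (by positivity)
  obtain ⟨N, hN⟩ := mem_iUnion.mp hy
  refine ⟨N, fun n hn => ?_⟩
  have hyfix : S.P (u n) y = y := S.fix_mono (hu hn) ((S.mem_range_iff _ _).mp hN)
  have h1 : S.P (u n) x = S.P (u n) (S.P s x) := (S.comp_left (hs.1 ⟨n, rfl⟩) x).symm
  rw [dist_eq_norm] at hyd ⊢
  have h2 : S.P (u n) x - S.P s x = S.P (u n) (S.P s x - y) - (S.P s x - y) := by
    rw [h1, map_sub, hyfix]; abel
  rw [h2]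
  calc ‖S.P (u n) (S.P s x - y) - (S.P s x - y)‖
      ≤ ‖S.P (u n) (S.P s x - y)‖ + ‖S.P s x - y‖ := norm_sub_le _ _
    _ ≤ C * ‖S.P s x - y‖ + ‖S.P s x - y‖ := by
        gcongr
        exact ((S.P (u n)).le_opNorm _).trans (mul_le_mul_of_nonneg_right (hC n) (norm_nonneg _))
    _ = (C + 1) * ‖S.P s x - y‖ := by ring
    _ < (C + 1) * (ε / (C + 1)) := by
        apply mul_lt_mul_of_pos_left hyd (by positivity)
    _ = ε := by field_simp

theorem norm_sup_le (S : ProjSkeleton 𝕜 X Γ) {C : ℝ} (u : ℕ → Γ) (hu : Monotone u) (hC : ∀ n, ‖S.P (u n)‖ ≤ C)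
    (s : Γ) (hs : IsLUB (range u) s) : ‖S.P s‖ ≤ C := by
  have hC0 : 0 ≤ C := (norm_nonneg _).trans (hC 0)
  apply ContinuousLinearMap.opNorm_le_bound _ hC0
  intro x
  apply le_of_tendsto (S.tendsto_seq u hu hC s hs x).norm
  filter_upwards with n
  exact ((S.P (u n)).le_opNorm _).trans (mul_le_mul_of_nonneg_right (hC n) (norm_nonneg _))

/-- an upper bound for a sequence of indices -/
theorem exists_upper (S : ProjSkeleton 𝕜 X Γ) (u : ℕ → Γ) : ∃ s, ∀ n, u n ≤ s := by
  choose f hf1 hf2 using S.directed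
  let w : ℕ → Γ := fun n => Nat.rec (u 0) (fun k r => f r (u (k + 1))) n
  have hw : ∀ n, w (n + 1) = f (w n) (u (n + 1)) := fun n => rfl
  have hmono : Monotone w := monotone_nat_of_le_succ fun n => by
    rw [hw]; exact hf1 _ _
  have hle : ∀ n, u n ≤ w n := by
    intro n
    cases n with
    | zero => exact le_rfl
    | succ n => rw [hw]; exact hf2 _ _
  obtain ⟨s, hs⟩ := S.exists_sup_mono w hmono
  exact ⟨s, fun n => (hle n).trans (hs.1 ⟨n, rfl⟩)⟩

/-- some level of boundedness is cofinal -/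
theorem exists_cofinal_bound (S : ProjSkeleton 𝕜 X Γ) : ∃ C : ℝ, ∀ s, ∃ t, s ≤ t ∧ ‖S.P t‖ ≤ C := by
  by_contra hcon
  push Not at hcon
  choose f hf using fun n : ℕ => hcon n
  obtain ⟨t, ht⟩ := S.exists_upper f
  obtain ⟨n, hn⟩ := exists_nat_gt ‖S.P t‖
  have := hf n t (ht n)
  linarith

end ProjSkeleton

/-- A projectional skeleton with a uniform bound. -/
structure BSkel (𝕜 : Type*) [RCLike 𝕜] (X : Type*) [NormedAddCommGroup X]
    [NormedSpace 𝕜 X] (Γ : Type*) [PartialOrder Γ] extends ProjSkeleton 𝕜 X Γ where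
  C : ℝ
  bound : ∀ s, ‖P s‖ ≤ C

/-- nonempty directed sets of indices -/
structure Dir (Γ : Type*) [PartialOrder Γ] where
  S : Set Γ
  ne : S.Nonempty
  dir : ∀ a ∈ S, ∀ b ∈ S, ∃ c ∈ S, a ≤ c ∧ b ≤ c

namespace Dir

instance (T : Dir Γ) : Nonempty T.S := T.ne.to_subtype

instance (T : Dir Γ) : IsDirectedOrder T.S :=
  ⟨fun a b => by
    obtain ⟨c, hc, h1, h2⟩ := T.dir a a.2 b b.2
    exact ⟨⟨c, hc⟩, h1, h2⟩⟩

/-- the filter of tails -/
def filter (T : Dir Γ) : Filter Γ := Filter.map (Subtype.val : T.S → Γ) atTop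

instance (T : Dir Γ) : T.filter.NeBot := by unfold filter; infer_instance

theorem eventually_iff (T : Dir Γ) (p : Γ → Prop) :
    (∀ᶠ s in T.filter, p s) ↔ ∃ t ∈ T.S, ∀ t' ∈ T.S, t ≤ t' → p t' := by
  unfold filter
  rw [Filter.eventually_map, Filter.eventually_atTop]
  constructor
  · rintro ⟨t, ht⟩
    exact ⟨t, t.2, fun t' ht' h => ht ⟨t', ht'⟩ h⟩
  · rintro ⟨t, ht, h⟩
    exact ⟨⟨t, ht⟩, fun t' htt' => h t' t'.2 htt'⟩

end Dir

section closure

variable {Γ : Type*}

/-- iterated closure of a set under a binary operation -/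
def clo (u : Γ → Γ → Γ) (A : Set Γ) : ℕ → Set Γ
  | 0 => A
  | n + 1 => clo u A n ∪ Set.image2 u (clo u A n) (clo u A n)

/-- closure of a set under a binary operation -/
def Cl (u : Γ → Γ → Γ) (A : Set Γ) : Set Γ := ⋃ n, clo u A n

theorem clo_mono_nat (u : Γ → Γ → Γ) (A : Set Γ) : Monotone (clo u A) :=
  monotone_nat_of_le_succ fun _ => subset_union_left

theorem clo_mono_set (u : Γ → Γ → Γ) {A B : Set Γ} (h : A ⊆ B) (n : ℕ) :
    clo u A n ⊆ clo u B n := by
  induction n with
  | zero => exact h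
  | succ n ih => exact union_subset_union ih (image2_subset ih ih)

theorem Cl_mono (u : Γ → Γ → Γ) {A B : Set Γ} (h : A ⊆ B) : Cl u A ⊆ Cl u B :=
  iUnion_mono fun n => clo_mono_set u h n

theorem subset_Cl (u : Γ → Γ → Γ) (A : Set Γ) : A ⊆ Cl u A :=
  subset_iUnion (clo u A) 0

theorem Cl_closed (u : Γ → Γ → Γ) (A : Set Γ) {a b : Γ} (ha : a ∈ Cl u A) (hb : b ∈ Cl u A) :
    u a b ∈ Cl u A := by
  obtain ⟨n, hn⟩ := mem_iUnion.mp ha
  obtain ⟨k, hk⟩ := mem_iUnion.mp hb
  apply mem_iUnion.mpr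
  refine ⟨max n k + 1, Or.inr ⟨a, ?_, b, ?_, rfl⟩⟩
  · exact clo_mono_nat u A (le_max_left n k) hn
  · exact clo_mono_nat u A (le_max_right n k) hk

theorem Cl_subset (u : Γ → Γ → Γ) (A B : Set Γ) (h : A ⊆ B)
    (hB : ∀ a ∈ B, ∀ b ∈ B, u a b ∈ B) : Cl u A ⊆ B := by
  apply iUnion_subset
  intro n
  induction n with
  | zero => exact h
  | succ n ih =>
    apply union_subset ih
    rintro _ ⟨a, ha, b, hb, rfl⟩
    exact hB a (ih ha) b (ih hb)

theorem Cl_countable (u : Γ → Γ → Γ) {A : Set Γ} (h : A.Countable) : (Cl u A).Countable := by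
  apply countable_iUnion
  intro n
  induction n with
  | zero => exact h
  | succ n ih => exact ih.union (ih.image2 ih u)

theorem Cl_card {Γ : Type v} (u : Γ → Γ → Γ) (A : Set Γ) :
    Cardinal.mk (Cl u A) ≤ max Cardinal.aleph0 (Cardinal.mk A) := by
  set κ : Cardinal := max Cardinal.aleph0 (Cardinal.mk A) with hκ
  have hκ0 : Cardinal.aleph0 ≤ κ := le_max_left _ _
  have h : ∀ n, Cardinal.mk (clo u A n) ≤ κ := by
    intro n
    induction n with
    | zero => exact le_max_right _ _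
    | succ n ih =>
      have h1 : Cardinal.mk (Set.image2 u (clo u A n) (clo u A n)) ≤ κ := by
        have h2 : Set.image2 u (clo u A n) (clo u A n) =
            Set.range (fun p : clo u A n × clo u A n => u p.1 p.2) := by
          ext x
          constructor
          · rintro ⟨a, ha, b, hb, rfl⟩
            exact ⟨(⟨a, ha⟩, ⟨b, hb⟩), rfl⟩
          · rintro ⟨⟨⟨a, ha⟩, ⟨b, hb⟩⟩, rfl⟩
            exact ⟨a, ha, b, hb, rfl⟩
        rw [h2]
        refine Cardinal.mk_range_le.trans ?_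
        simp only [Cardinal.mk_prod, Cardinal.lift_id]
        exact (mul_le_mul' ih ih).trans (Cardinal.mul_eq_self hκ0).le
      exact (Cardinal.mk_union_le _ _).trans
        ((add_le_add ih h1).trans (Cardinal.add_eq_self hκ0).le)
  unfold Cl
  have h3 := Cardinal.mk_iUnion_le_lift (clo u A)
  rw [Cardinal.lift_uzero, Cardinal.mk_nat, Cardinal.lift_aleph0] at h3
  refine h3.trans ?_
  have h4 : ⨆ i, Cardinal.lift.{0} (Cardinal.mk (clo u A i)) ≤ κ := by
    apply ciSup_le'
    intro n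
    rw [Cardinal.lift_uzero]
    exact h n
  exact (mul_le_mul' hκ0 h4).trans (Cardinal.mul_eq_self hκ0).le

theorem clo_fin (u : Γ → Γ → Γ) (A : Set Γ) (n : ℕ) (a : Γ) (ha : a ∈ clo u A n) :
    ∃ F : Set Γ, F.Finite ∧ F ⊆ A ∧ a ∈ clo u F n := by
  induction n generalizing a with
  | zero => exact ⟨{a}, finite_singleton a, singleton_subset_iff.mpr ha, rfl⟩
  | succ n ih =>
    rcases ha with ha | ⟨b, hb, c, hc, rfl⟩
    · obtain ⟨F, h1, h2, h3⟩ := ih a ha
      exact ⟨F, h1, h2, Or.inl h3⟩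
    · obtain ⟨F, h1, h2, h3⟩ := ih b hb
      obtain ⟨G, g1, g2, g3⟩ := ih c hc
      exact ⟨F ∪ G, h1.union g1, union_subset h2 g2, Or.inr ⟨b, clo_mono_set u subset_union_left n h3,
        c, clo_mono_set u subset_union_right n g3, rfl⟩⟩

theorem Cl_fin (u : Γ → Γ → Γ) (A : Set Γ) (a : Γ) (ha : a ∈ Cl u A) :
    ∃ F : Set Γ, F.Finite ∧ F ⊆ A ∧ a ∈ Cl u F := by
  obtain ⟨n, hn⟩ := mem_iUnion.mp ha
  obtain ⟨F, h1, h2, h3⟩ := clo_fin u A n a hn
  exact ⟨F, h1, h2, mem_iUnion.mpr ⟨n, h3⟩⟩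

end closure

namespace Dir

open Classical in
/-- upper bounds inside a directed set -/
noncomputable def ub (T : Dir Γ) : Γ → Γ → Γ := fun a b =>
  if h : a ∈ T.S ∧ b ∈ T.S then Classical.choose (T.dir a h.1 b h.2) else a

theorem ub_spec (T : Dir Γ) {a b : Γ} (ha : a ∈ T.S) (hb : b ∈ T.S) :
    T.ub a b ∈ T.S ∧ a ≤ T.ub a b ∧ b ≤ T.ub a b := by
  unfold ub
  rw [dif_pos ⟨ha, hb⟩]
  exact Classical.choose_spec (T.dir a ha b hb)

/-- the directed subset of `T` generated by a set -/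
noncomputable def cl (T : Dir Γ) (A : Set Γ) : Dir Γ where
  S := Cl T.ub ((A ∩ T.S) ∪ {Classical.choose T.ne})
  ne := ⟨Classical.choose T.ne, subset_Cl _ _ (Or.inr rfl)⟩
  dir := by
    have hsub : Cl T.ub ((A ∩ T.S) ∪ {Classical.choose T.ne}) ⊆ T.S := by
      apply Cl_subset
      · apply union_subset inter_subset_right
        exact singleton_subset_iff.mpr (Classical.choose_spec T.ne)
      · intro a ha b hb
        exact (T.ub_spec ha hb).1
    intro a ha b hb
    exact ⟨T.ub a b, Cl_closed _ _ ha hb, (T.ub_spec (hsub ha) (hsub hb)).2⟩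

theorem cl_sub (T : Dir Γ) (A : Set Γ) : (T.cl A).S ⊆ T.S := by
  apply Cl_subset
  · apply union_subset inter_subset_right
    exact singleton_subset_iff.mpr (Classical.choose_spec T.ne)
  · intro a ha b hb
    exact (T.ub_spec ha hb).1

theorem sub_cl (T : Dir Γ) (A : Set Γ) : A ∩ T.S ⊆ (T.cl A).S :=
  subset_union_left.trans (subset_Cl _ _)

theorem cl_mono (T : Dir Γ) {A B : Set Γ} (h : A ⊆ B) : (T.cl A).S ⊆ (T.cl B).S :=
  Cl_mono _ (union_subset_union_left _ (inter_subset_inter_left _ h))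

theorem cl_countable (T : Dir Γ) {A : Set Γ} (h : A.Countable) : (T.cl A).S.Countable :=
  Cl_countable _ ((h.mono inter_subset_left).union (countable_singleton _))

theorem cl_card {Γ : Type v} [PartialOrder Γ] (T : Dir Γ) (A : Set Γ) :
    Cardinal.mk (T.cl A).S ≤ max Cardinal.aleph0 (Cardinal.mk A) := by
  refine (Cl_card _ _).trans ?_
  apply max_le (le_max_left _ _)
  refine (Cardinal.mk_union_le _ _).trans ?_
  have h1 : Cardinal.mk (A ∩ T.S : Set Γ) ≤ max Cardinal.aleph0 (Cardinal.mk A) :=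
    (Cardinal.mk_le_mk_of_subset inter_subset_left).trans (le_max_right _ _)
  have h2 : Cardinal.mk ({Classical.choose T.ne} : Set Γ) ≤
      max Cardinal.aleph0 (Cardinal.mk A) := by
    rw [Cardinal.mk_singleton]
    exact Cardinal.one_le_aleph0.trans (le_max_left _ _)
  exact (add_le_add h1 h2).trans (Cardinal.add_eq_self (le_max_left _ _)).le

theorem cl_fin (T : Dir Γ) (A : Set Γ) (t : Γ) (ht : t ∈ (T.cl A).S) :
    ∃ F : Set Γ, F.Finite ∧ F ⊆ A ∧ t ∈ (T.cl F).S := by
  obtain ⟨F, h1, h2, h3⟩ := Cl_fin _ _ t ht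
  refine ⟨F ∩ A, h1.inter_of_left _, inter_subset_right, ?_⟩
  refine Cl_mono _ ?_ h3
  intro x hx
  rcases h2 hx with h | h
  · exact Or.inl ⟨⟨hx, h.1⟩, h.2⟩
  · exact Or.inr h

end Dir

/-- the ordinals which are not the supremum of a sequence of smaller ordinals -/
def UncCof (δ : Ordinal) : Prop :=
  ∀ f : ℕ → Ordinal, (∀ n, f n < δ) → ∃ β < δ, ∀ n, f n < β

namespace BSkel

variable (S : BSkel 𝕜 X Γ)

theorem C_nonneg (S : BSkel 𝕜 X Γ) : 0 ≤ S.C := by
  obtain ⟨s⟩ := S.nonempty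
  exact (norm_nonneg _).trans (S.bound s)

theorem norm_P_le (S : BSkel 𝕜 X Γ) (s : Γ) (x : X) : ‖S.P s x‖ ≤ S.C * ‖x‖ :=
  ((S.P s).le_opNorm x).trans (mul_le_mul_of_nonneg_right (S.bound s) (norm_nonneg _))

theorem cauchy_aux (S : BSkel 𝕜 X Γ) (T : Dir Γ) (x : X) (ε : ℝ) (hε : 0 < ε) :
    ∃ t ∈ T.S, ∀ t' ∈ T.S, t ≤ t' → ‖S.P t' x - S.P t x‖ < ε := by
  by_contra hcon
  push Not at hcon
  choose! g hg1 hg2 hg3 using hcon
  obtain ⟨t₀, ht₀⟩ := T.ne
  let u : ℕ → Γ := fun n => Nat.rec t₀ (fun _ r => g r) n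
  have hu : ∀ n, u (n + 1) = g (u n) := fun n => rfl
  have huT : ∀ n, u n ∈ T.S := by
    intro n
    induction n with
    | zero => exact ht₀
    | succ n ih => rw [hu]; exact hg1 _ ih
  have hmono : Monotone u := monotone_nat_of_le_succ fun n => by
    rw [hu]; exact hg2 _ (huT n)
  obtain ⟨s, hs⟩ := S.exists_sup_mono u hmono
  have hlim := S.tendsto_seq u hmono (fun n => S.bound _) s hs x
  have h2 : Tendsto (fun n => S.P (u (n + 1)) x - S.P (u n) x) atTop (𝓝 (S.P s x - S.P s x)) :=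
    (hlim.comp (tendsto_add_atTop_nat 1)).sub hlim
  rw [sub_self] at h2
  have h3 := h2.norm
  rw [norm_zero] at h3
  have h4 : ∀ᶠ n in atTop, ‖S.P (u (n + 1)) x - S.P (u n) x‖ < ε := h3.eventually (gt_mem_nhds hε)
  obtain ⟨n, hn⟩ := h4.exists
  have := hg3 (u n) (huT n)
  rw [← hu] at this
  linarith

theorem exists_lim [CompleteSpace X] (S : BSkel 𝕜 X Γ) (T : Dir Γ) (x : X) :
    ∃ L, Tendsto (fun s => S.P s x) T.filter (𝓝 L) := by
  apply CompleteSpace.complete
  rw [Metric.cauchy_iff]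
  refine ⟨inferInstance, ?_⟩
  intro ε hε
  obtain ⟨t, ht, h⟩ := S.cauchy_aux T x (ε / 2) (by positivity)
  refine ⟨Metric.ball (S.P t x) (ε / 2), ?_, ?_⟩
  · have : ∀ᶠ s in T.filter, S.P s x ∈ Metric.ball (S.P t x) (ε / 2) := by
      rw [Dir.eventually_iff]
      refine ⟨t, ht, fun t' ht' htt' => ?_⟩
      rw [Metric.mem_ball, dist_eq_norm]
      exact h t' ht' htt'
    exact this
  · intro a ha b hb
    calc dist a b ≤ dist a (S.P t x) + dist b (S.P t x) := dist_triangle_right _ _ _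
      _ < ε / 2 + ε / 2 := add_lt_add ha hb
      _ = ε := by ring

/-- members of the induced subspace, countable version -/
theorem common_index (S : BSkel 𝕜 X Γ) (f : ℕ → X →L[𝕜] 𝕜) (hf : ∀ n, f n ∈ S.induced) :
    ∃ s, ∀ n x, f n (S.P s x) = f n x := by
  choose u hu using fun n => (S.mem_induced (f n)).mp (hf n)
  obtain ⟨s, hs⟩ := S.exists_upper u
  refine ⟨s, fun n x => ?_⟩
  rw [← hu n (S.P s x), S.comp_left (hs n), hu]

/-- the induced subspace separates the points -/
theorem separates (S : BSkel 𝕜 X Γ) (x : X) (hx : ∀ f ∈ S.induced, f x = 0) : x = 0 := by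
  obtain ⟨s, hs⟩ := S.exists_fix x
  by_contra hne
  obtain ⟨g, _, hg⟩ := exists_dual_vector 𝕜 x (norm_ne_zero_iff.mpr hne)
  have h1 := hx (g.comp (S.P s)) ⟨s, g, rfl⟩
  rw [ContinuousLinearMap.comp_apply, hs, hg] at h1
  have : (‖x‖ : 𝕜) ≠ 0 := by
    rw [Ne, RCLike.ofReal_eq_zero]
    exact norm_ne_zero_iff.mpr hne
  exact this h1

variable [CompleteSpace X]

/-- The projection associated with a directed set of indices. -/
noncomputable def PT (T : Dir Γ) : X →L[𝕜] X :=
  LinearMap.mkContinuous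
    { toFun := fun x => limUnder T.filter (fun s => S.P s x)
      map_add' := by
        intro x y
        apply Tendsto.limUnder_eq
        have h1 := (tendsto_nhds_limUnder (S.exists_lim T x)).add
          (tendsto_nhds_limUnder (S.exists_lim T y))
        refine h1.congr ?_
        intro s
        rw [map_add]
      map_smul' := by
        intro c x
        apply Tendsto.limUnder_eq
        have h1 := (tendsto_nhds_limUnder (S.exists_lim T x)).const_smul c
        refine h1.congr ?_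
        intro s
        rw [map_smul] }
    S.C (by
      intro x
      apply le_of_tendsto (tendsto_nhds_limUnder (S.exists_lim T x)).norm
      filter_upwards with s
      exact S.norm_P_le s x)

theorem tendsto_PT (T : Dir Γ) (x : X) :
    Tendsto (fun s => S.P s x) T.filter (𝓝 (S.PT T x)) :=
  tendsto_nhds_limUnder (S.exists_lim T x)

theorem norm_PT_le (T : Dir Γ) (x : X) : ‖S.PT T x‖ ≤ S.C * ‖x‖ := by
  apply le_of_tendsto (S.tendsto_PT T x).norm
  filter_upwards with s
  exact S.norm_P_le s x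

theorem PT_eq_of_eventually {T : Dir Γ} {x y : X}
    (h : ∃ t ∈ T.S, ∀ t' ∈ T.S, t ≤ t' → S.P t' x = y) : S.PT T x = y := by
  have h1 : ∀ᶠ s in T.filter, S.P s x = y := (Dir.eventually_iff T _).mpr h
  have h2 : Tendsto (fun s => S.P s x) T.filter (𝓝 y) :=
    tendsto_const_nhds.congr' (by filter_upwards [h1] with s hs using hs.symm)
  exact tendsto_nhds_unique (S.tendsto_PT T x) h2

theorem PT_P {T : Dir Γ} {s : Γ} (hs : s ∈ T.S) (x : X) : S.PT T (S.P s x) = S.P s x :=
  S.PT_eq_of_eventually ⟨s, hs, fun _ _ h => S.comp_right h x⟩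

theorem P_PT {T : Dir Γ} {s : Γ} (hs : s ∈ T.S) (x : X) : S.P s (S.PT T x) = S.P s x := by
  have h1 : Tendsto (fun t => S.P s (S.P t x)) T.filter (𝓝 (S.P s (S.PT T x))) :=
    ((S.P s).continuous.tendsto _).comp (S.tendsto_PT T x)
  have h2 : Tendsto (fun t => S.P s (S.P t x)) T.filter (𝓝 (S.P s x)) := by
    apply tendsto_const_nhds.congr'
    have : ∀ᶠ t in T.filter, S.P s (S.P t x) = S.P s x :=
      (Dir.eventually_iff T _).mpr ⟨s, hs, fun t' _ h => S.comp_left h x⟩
    filter_upwards [this] with t ht using ht.symm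
  exact tendsto_nhds_unique h1 h2

theorem PT_fix_of_mem {T : Dir Γ} {s : Γ} (hs : s ∈ T.S) {x : X} (hx : S.P s x = x) :
    S.PT T x = x := by
  rw [← hx]; exact S.PT_P hs x

theorem PT_comp_left {T T' : Dir Γ} (h : T.S ⊆ T'.S) (x : X) :
    S.PT T (S.PT T' x) = S.PT T x := by
  have h1 := S.tendsto_PT T (S.PT T' x)
  have h2 : Tendsto (fun t => S.P t (S.PT T' x)) T.filter (𝓝 (S.PT T x)) := by
    apply (S.tendsto_PT T x).congr'
    have : ∀ᶠ t in T.filter, S.P t x = S.P t (S.PT T' x) := by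
      rw [Dir.eventually_iff]
      obtain ⟨t₀, ht₀⟩ := T.ne
      exact ⟨t₀, ht₀, fun t ht _ => (S.P_PT (h ht) x).symm⟩
    exact this
  exact tendsto_nhds_unique h1 h2

theorem PT_comp_right {T T' : Dir Γ} (h : T.S ⊆ T'.S) (x : X) :
    S.PT T' (S.PT T x) = S.PT T x := by
  have h1 : Tendsto (fun t => S.PT T' (S.P t x)) T.filter (𝓝 (S.PT T' (S.PT T x))) :=
    ((S.PT T').continuous.tendsto _).comp (S.tendsto_PT T x)
  have h2 : Tendsto (fun t => S.PT T' (S.P t x)) T.filter (𝓝 (S.PT T x)) := by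
    apply (S.tendsto_PT T x).congr'
    have : ∀ᶠ t in T.filter, S.P t x = S.PT T' (S.P t x) := by
      rw [Dir.eventually_iff]
      obtain ⟨t₀, ht₀⟩ := T.ne
      exact ⟨t₀, ht₀, fun t ht _ => (S.PT_P (h ht) x).symm⟩
    exact this
  exact tendsto_nhds_unique h1 h2

theorem PT_idem (T : Dir Γ) (x : X) : S.PT T (S.PT T x) = S.PT T x :=
  S.PT_comp_left (Subset.refl _) x

/-- uniform approximation -/
theorem approx (T : Dir Γ) (x : X) (ε : ℝ) (hε : 0 < ε) :
    ∃ t ∈ T.S, (∀ t' ∈ T.S, t ≤ t' → ‖S.P t' x - S.PT T x‖ < ε) ∧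
      ∀ T' : Dir Γ, t ∈ T'.S → T'.S ⊆ T.S → ‖S.PT T' x - S.PT T x‖ ≤ ε := by
  have h1 : ∀ᶠ s in T.filter, ‖S.P s x - S.PT T x‖ < ε := by
    have := (S.tendsto_PT T x).eventually (Metric.ball_mem_nhds _ hε)
    filter_upwards [this] with s hs
    rw [← dist_eq_norm]
    exact hs
  rw [Dir.eventually_iff] at h1
  obtain ⟨t, ht, h⟩ := h1
  refine ⟨t, ht, h, fun T' htT' hsub => ?_⟩
  have h2 : Tendsto (fun s => ‖S.P s x - S.PT T x‖) T'.filter (𝓝 ‖S.PT T' x - S.PT T x‖) :=
    ((S.tendsto_PT T' x).sub_const _).norm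
  apply le_of_tendsto h2
  rw [Dir.eventually_iff]
  exact ⟨t, htT', fun t' ht' htt' => (h t' (hsub ht') htt').le⟩

/-- countable directed sets give members of the skeleton -/
theorem PT_countable (T : Dir Γ) (hT : T.S.Countable) : ∃ s, (∀ t ∈ T.S, t ≤ s) ∧
    ∀ x, S.PT T x = S.P s x := by
  obtain ⟨e, he⟩ := hT.exists_eq_range T.ne
  have heT : ∀ n, e n ∈ T.S := fun n => by rw [he]; exact ⟨n, rfl⟩
  have hd := T.dir
  choose! f hf1 hf2 hf3 using hd
  let w : ℕ → Γ := fun n => Nat.rec (e 0) (fun k r => f r (e (k + 1))) n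
  have hw : ∀ n, w (n + 1) = f (w n) (e (n + 1)) := fun n => rfl
  have hwT : ∀ n, w n ∈ T.S := by
    intro n
    induction n with
    | zero => exact heT 0
    | succ n ih => rw [hw]; exact hf1 _ ih _ (heT _)
  have hmono : Monotone w := monotone_nat_of_le_succ fun n => by
    rw [hw]; exact hf2 _ (hwT n) _ (heT _)
  have hle : ∀ n, e n ≤ w n := by
    intro n
    cases n with
    | zero => exact le_rfl
    | succ n => rw [hw]; exact hf3 _ (hwT n) _ (heT _)
  obtain ⟨s, hs⟩ := S.exists_sup_mono w hmono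
  have hup : ∀ t ∈ T.S, t ≤ s := by
    intro t ht
    rw [he] at ht
    obtain ⟨n, rfl⟩ := ht
    exact (hle n).trans (hs.1 ⟨n, rfl⟩)
  refine ⟨s, hup, fun x => ?_⟩
  have h1 := S.tendsto_seq w hmono (fun n => S.bound _) s hs x
  have h2 : Tendsto w atTop T.filter := by
    intro A hA
    have : ∀ᶠ a in T.filter, a ∈ A := hA
    rw [Dir.eventually_iff] at this
    obtain ⟨t, ht, hA'⟩ := this
    rw [Filter.mem_map]
    rw [he] at ht
    obtain ⟨n, rfl⟩ := ht
    filter_upwards [eventually_ge_atTop n] with k hk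
    exact hA' _ (hwT k) ((hle n).trans (hmono hk))
  exact tendsto_nhds_unique ((S.tendsto_PT T x).comp h2) h1

theorem PT_univ (T : Dir Γ) (hT : T.S = univ) (x : X) : S.PT T x = x := by
  obtain ⟨s, hs⟩ := S.exists_fix x
  exact S.PT_fix_of_mem (by rw [hT]; trivial) hs

theorem mem_of_PT_countable (T : Dir Γ) (hT : T.S.Countable) (f : X →L[𝕜] 𝕜) :
    f.comp (S.PT T) ∈ S.induced := by
  obtain ⟨s, _, hs⟩ := S.PT_countable T hT
  refine ⟨s, f, ?_⟩
  ext x
  simp only [ContinuousLinearMap.comp_apply]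
  rw [hs]

theorem stab (Tc : Ordinal → Dir Γ) (hmono : ∀ α β, α ≤ β → (Tc α).S ⊆ (Tc β).S)
    (δ : Ordinal) (hδ : UncCof δ) (hcont : ∀ t ∈ (Tc δ).S, ∃ α < δ, t ∈ (Tc α).S) (s : Γ) :
    ∃ β < δ, ∀ α, β ≤ α → α < δ → ∀ y, S.P s y = y → S.PT (Tc α) y = S.PT (Tc δ) y := by
  obtain ⟨c, hc, hcs⟩ := S.separable s
  have hcne : c.Nonempty := by
    rcases c.eq_empty_or_nonempty with h | h
    · rw [h, closure_empty] at hcs
      exact absurd (hcs ⟨0, rfl⟩) (notMem_empty _)
    · exact h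
  obtain ⟨e, he⟩ := hc.exists_eq_range hcne
  have h1 : ∀ n : ℕ, ∃ α < δ, ∃ t ∈ (Tc α).S, t ∈ (Tc δ).S ∧ ∀ T' : Dir Γ, t ∈ T'.S →
      T'.S ⊆ (Tc δ).S → ‖S.PT T' (S.P s (e n.unpair.1)) -
        S.PT (Tc δ) (S.P s (e n.unpair.1))‖ ≤ 1 / (n.unpair.2 + 1) := by
    intro n
    obtain ⟨t, ht, _, h⟩ := S.approx (Tc δ) (S.P s (e n.unpair.1)) (1 / (n.unpair.2 + 1))
      (by positivity)
    obtain ⟨α, hα, htα⟩ := hcont t ht
    exact ⟨α, hα, t, htα, ht, h⟩
  choose a ha t ht1 ht2 ht3 using h1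
  obtain ⟨β, hβ, hβa⟩ := hδ a ha
  refine ⟨β, hβ, fun α hα1 hα2 y hy => ?_⟩
  have hsub : (Tc α).S ⊆ (Tc δ).S := hmono _ _ hα2.le
  have heq : ∀ k, S.PT (Tc α) (S.P s (e k)) = S.PT (Tc δ) (S.P s (e k)) := by
    intro k
    rw [← sub_eq_zero, ← norm_le_zero_iff]
    apply le_of_forall_pos_le_add
    intro ε hε
    obtain ⟨j, hj⟩ := exists_nat_one_div_lt hε
    have h2 := ht3 (Nat.pair k j) (Tc α)
      (hmono _ _ ((hβa _).le.trans hα1) (ht1 (Nat.pair k j))) hsub
    simp only [Nat.unpair_pair] at h2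
    linarith
  have hclos : EqOn (fun x => S.PT (Tc α) (S.P s x)) (fun x => S.PT (Tc δ) (S.P s x))
      (closure c) := by
    apply EqOn.closure
    · intro x hx
      rw [he] at hx
      obtain ⟨k, rfl⟩ := hx
      exact heq k
    · exact (S.PT (Tc α)).continuous.comp (S.P s).continuous
    · exact (S.PT (Tc δ)).continuous.comp (S.P s).continuous
  have := hclos (hcs ⟨y, hy⟩)
  simp only [hy] at this
  exact this

theorem tight (Tc : Ordinal → Dir Γ) (hmono : ∀ α β, α ≤ β → (Tc α).S ⊆ (Tc β).S)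
    (δ : Ordinal) (hδ : UncCof δ) (hcont : ∀ t ∈ (Tc δ).S, ∃ α < δ, t ∈ (Tc α).S)
    (z : X →L[𝕜] 𝕜) (hzD : z ∈ S.induced) (hz : ∀ x, z (S.PT (Tc δ) x) = z x)
    (hall : ∀ α < δ, z.comp (S.PT (Tc α)) ∈ S.induced) :
    ∃ β < δ, ∀ x, z (S.PT (Tc β) x) = z x := by
  obtain ⟨s₀, hs₀⟩ := (S.mem_induced z).mp hzD
  choose A hAδ hA using fun s => S.stab Tc hmono δ hδ hcont s
  have hB : ∀ α, ∃ s, α < δ → ∀ x, z (S.PT (Tc α) (S.P s x)) = z (S.PT (Tc α) x) := by
    intro α
    by_cases hα : α < δ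
    · obtain ⟨s, hs⟩ := (S.mem_induced _).mp (hall α hα)
      exact ⟨s, fun _ x => hs x⟩
    · exact ⟨s₀, fun h => absurd h hα⟩
  choose B hB using hB
  choose ub hub1 hub2 using S.directed
  let st : ℕ → Γ × Ordinal := fun n => Nat.rec (s₀, A s₀)
    (fun _ p => (ub p.1 (B p.2), max p.2 (A (ub p.1 (B p.2))))) n
  have hst : ∀ n, st (n + 1) = (ub (st n).1 (B (st n).2),
    max (st n).2 (A (ub (st n).1 (B (st n).2)))) := fun n => rfl
  have hαδ : ∀ n, (st n).2 < δ := by
    intro n
    induction n with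
    | zero => exact hAδ s₀
    | succ n ih =>
      rw [hst]
      exact max_lt ih (hAδ _)
  have hAα : ∀ n, A (st n).1 ≤ (st n).2 := by
    intro n
    cases n with
    | zero => exact le_rfl
    | succ n => rw [hst]; exact le_max_right _ _
  have hs_mono : Monotone (fun n => (st n).1) := monotone_nat_of_le_succ fun n => by
    rw [hst]; exact hub1 _ _
  have hα_mono : Monotone (fun n => (st n).2) := monotone_nat_of_le_succ fun n => by
    rw [hst]; exact le_max_left _ _
  have hBs : ∀ n, B (st n).2 ≤ (st (n + 1)).1 := fun n => by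
    rw [hst]; exact hub2 _ _
  obtain ⟨s, hs⟩ := S.exists_sup_mono (fun n => (st n).1) hs_mono
  have hles : ∀ n, (st n).1 ≤ s := fun n => hs.1 ⟨n, rfl⟩
  -- the union of the sets `Tc (α n)`
  let T' : Dir Γ :=
    { S := ⋃ n, (Tc (st n).2).S
      ne := by
        obtain ⟨t, ht⟩ := (Tc (st 0).2).ne
        exact ⟨t, mem_iUnion.mpr ⟨0, ht⟩⟩
      dir := by
        intro a ha b hb
        obtain ⟨n, hn⟩ := mem_iUnion.mp ha
        obtain ⟨k, hk⟩ := mem_iUnion.mp hb
        obtain ⟨c, hc, h1, h2⟩ := (Tc (st (max n k)).2).dir a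
          (hmono _ _ (hα_mono (le_max_left n k)) hn) b (hmono _ _ (hα_mono (le_max_right n k)) hk)
        exact ⟨c, mem_iUnion.mpr ⟨_, hc⟩, h1, h2⟩ }
  have hT'sub : ∀ n, (Tc (st n).2).S ⊆ T'.S := fun n =>
    subset_iUnion (fun n => (Tc (st n).2).S) n
  have hconv : ∀ x, Tendsto (fun n => S.PT (Tc (st n).2) x) atTop (𝓝 (S.PT T' x)) := by
    intro x
    rw [Metric.tendsto_atTop]
    intro ε hε
    obtain ⟨t, ht, _, h⟩ := S.approx T' x (ε / 2) (by positivity)
    obtain ⟨m, hm⟩ := mem_iUnion.mp ht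
    refine ⟨m, fun n hn => ?_⟩
    rw [dist_eq_norm]
    have := h (Tc (st n).2) (hmono _ _ (hα_mono hn) hm) (hT'sub n)
    linarith
  have ha : ∀ n x, z (S.PT (Tc (st n).2) (S.P s x)) = z (S.PT (Tc (st n).2) x) := by
    intro n x
    have h1 : B (st n).2 ≤ s := (hBs n).trans (hles (n + 1))
    rw [← hB _ (hαδ n) (S.P s x), S.comp_left h1, hB _ (hαδ n)]
  have hc : ∀ x, z (S.PT T' (S.P s x)) = z (S.PT T' x) := by
    intro x
    have h1 := (z.continuous.tendsto _).comp (hconv (S.P s x))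
    have h2 := (z.continuous.tendsto _).comp (hconv x)
    refine tendsto_nhds_unique h1 (h2.congr ?_)
    intro n
    exact (ha n x).symm
  have hd : ∀ n y, S.P (st n).1 y = y → z (S.PT T' y) = z y := by
    intro n y hy
    have h1 : S.PT T' y = S.PT (Tc δ) y := by
      refine tendsto_nhds_unique (hconv y) (tendsto_const_nhds.congr' ?_)
      filter_upwards [eventually_ge_atTop n] with m hm
      exact (hA _ _ ((hAα n).trans (hα_mono hm)) (hαδ m) y hy).symm
    rw [h1, hz]
  have he : ∀ y, S.P s y = y → z (S.PT T' y) = z y := by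
    intro y hy
    have h1 : y ∈ closure (⋃ n, range (S.P (st n).1)) :=
      S.range_subset_closure _ hs_mono s hs ⟨y, hy⟩
    have h2 : EqOn (fun x => z (S.PT T' x)) (fun x => z x)
        (closure (⋃ n, range (S.P (st n).1))) := by
      apply EqOn.closure
      · intro x hx
        obtain ⟨n, hn⟩ := mem_iUnion.mp hx
        exact hd n x ((S.mem_range_iff _ _).mp hn)
      · exact z.continuous.comp (S.PT T').continuous
      · exact z.continuous
    exact h2 h1
  have hzs : ∀ x, z (S.P s x) = z x := by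
    intro x
    have h0 : s₀ ≤ s := hles 0
    rw [← hs₀ (S.P s x), S.comp_left h0, hs₀]
  have hf : ∀ x, z (S.PT T' x) = z x := by
    intro x
    rw [← hc, he _ (S.proj s x), hzs]
  obtain ⟨β, hβ, hβα⟩ := hδ (fun n => (st n).2) hαδ
  refine ⟨β, hβ, fun x => ?_⟩
  have hsub : T'.S ⊆ (Tc β).S := iUnion_subset fun n => hmono _ _ (hβα n).le
  rw [← hf (S.PT (Tc β) x), S.PT_comp_left hsub, hf]

end BSkel

section ordinals

/-- the first uncountable ordinal -/
noncomputable abbrev om1 : Ordinal.{v} := (Cardinal.aleph 1).ord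

theorem om1_pos : (0 : Ordinal.{v}) < om1 := by
  have : (0 : Ordinal.{v}).card < Cardinal.aleph 1 := by
    rw [Ordinal.card_zero]
    exact Cardinal.aleph_pos 1
  exact Cardinal.lt_ord.mpr this

theorem om1_limit {β : Ordinal.{v}} (h : β < om1) : β + 1 < om1 :=
  (Cardinal.isSuccLimit_ord (Cardinal.aleph0_le_aleph 1)).add_one_lt h

theorem unc_om1 : UncCof om1.{v} := by
  intro f hf
  have h1 : ∀ n, f n < Ordinal.omega 1 := by
    intro n
    rw [← Cardinal.ord_aleph]
    exact hf n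
  have h2 := Ordinal.iSup_lt_omega_one h1
  rw [← Cardinal.ord_aleph] at h2
  refine ⟨(⨆ i, f i) + 1, om1_limit h2, fun n => ?_⟩
  rw [Order.lt_add_one_iff]
  exact le_ciSup Ordinal.bddAbove_of_small n

theorem countable_Iio_of_lt_om1 {α : Ordinal.{v}} (h : α < om1) : (Set.Iio α).Countable := by
  rw [← Cardinal.le_aleph0_iff_set_countable, Cardinal.mk_Iio_ordinal]
  have h1 : α.card < Cardinal.aleph 1 := Cardinal.lt_ord.mp h
  have h2 : α.card ≤ Cardinal.aleph0 := by
    rw [← Order.lt_succ_iff, Cardinal.succ_aleph0]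
    exact h1
  rw [← Cardinal.lift_aleph0.{v + 1, v}]
  exact Cardinal.lift_le.mpr h2

/-- enumeration of a set by the ordinals below its cardinality -/
theorem enum_set {Γ : Type v} (R : Set Γ) : ∃ ρ : Γ → Ordinal.{v},
    (∀ t ∈ R, ρ t < (Cardinal.mk R).ord) ∧
      ∀ α : Ordinal.{v}, Cardinal.mk {t | t ∈ R ∧ ρ t < α} ≤ α.card := by
  classical
  obtain ⟨r, wo, hr⟩ := Cardinal.exists_ord_eq R
  let ρ : Γ → Ordinal.{v} := fun t => if h : t ∈ R then Ordinal.typein r ⟨t, h⟩ else 0
  refine ⟨ρ, ?_, ?_⟩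
  · intro t ht
    rw [hr]
    simp only [ρ, dif_pos ht]
    exact Ordinal.typein_lt_type r _
  · intro α
    have h1 : Cardinal.lift.{v + 1} (Cardinal.mk {t | t ∈ R ∧ ρ t < α}) ≤
        Cardinal.lift.{v} (Cardinal.mk (Set.Iio α)) := by
      apply Cardinal.lift_mk_le_lift_mk_of_injective
        (f := fun t : {t | t ∈ R ∧ ρ t < α} => (⟨ρ t, t.2.2⟩ : Set.Iio α))
      intro a b hab
      have h2 : ρ a = ρ b := congrArg Subtype.val hab
      simp only [ρ, dif_pos a.2.1, dif_pos b.2.1] at h2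
      have h3 := Ordinal.typein_injective r h2
      exact Subtype.ext (congrArg (fun x : R => (x : Γ)) h3)
    rw [Cardinal.mk_Iio_ordinal, Cardinal.lift_lift] at h1
    exact Cardinal.lift_le.mp (by simpa using h1)

end ordinals

/-- chain of directed subsets of `T` built by transfinite recursion -/
noncomputable def chain {Γ : Type v} [PartialOrder Γ] (T : Dir Γ) (Rf : Ordinal.{v} → Set Γ)
    (g : Dir Γ → Γ) (α : Ordinal.{v}) : Dir Γ :=
  T.cl (Rf α ∪ {x | ∃ β, ∃ _ : β < α, x = g (chain T Rf g β)})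
termination_by α

theorem chain_eq {Γ : Type v} [PartialOrder Γ] (T : Dir Γ) (Rf : Ordinal.{v} → Set Γ)
    (g : Dir Γ → Γ) (α : Ordinal.{v}) :
    chain T Rf g α = T.cl (Rf α ∪ {x | ∃ β, ∃ _ : β < α, x = g (chain T Rf g β)}) := by
  rw [chain]

theorem chain_mono {Γ : Type v} [PartialOrder Γ] (T : Dir Γ) (Rf : Ordinal.{v} → Set Γ)
    (hRf : ∀ α β, α ≤ β → Rf α ⊆ Rf β) (g : Dir Γ → Γ) (α β : Ordinal.{v}) (h : α ≤ β) :
    (chain T Rf g α).S ⊆ (chain T Rf g β).S := by
  rw [chain_eq T Rf g α, chain_eq T Rf g β]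
  apply Dir.cl_mono
  apply union_subset_union (hRf α β h)
  rintro x ⟨γ, hγ, rfl⟩
  exact ⟨γ, hγ.trans_le h, rfl⟩

theorem chain_sub {Γ : Type v} [PartialOrder Γ] (T : Dir Γ) (Rf : Ordinal.{v} → Set Γ)
    (g : Dir Γ → Γ) (α : Ordinal.{v}) : (chain T Rf g α).S ⊆ T.S := by
  rw [chain_eq]; exact T.cl_sub _

theorem finite_bound {Γ : Type v} (δ : Ordinal.{v}) (hδ : 0 < δ) (F : Set Γ) (hF : F.Finite)
    (p : Γ → Ordinal.{v} → Prop) (hp : ∀ t α β, α ≤ β → p t α → p t β)
    (h : ∀ t ∈ F, ∃ α < δ, p t α) : ∃ α < δ, ∀ t ∈ F, p t α := by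
  induction F, hF using Set.Finite.induction_on with
  | empty => exact ⟨0, hδ, fun t ht => absurd ht (notMem_empty t)⟩
  | @insert a s _ _ ih =>
    obtain ⟨α, hα, h1⟩ := ih (fun t ht => h t (mem_insert_of_mem _ ht))
    obtain ⟨β, hβ, h2⟩ := h a (mem_insert _ _)
    refine ⟨max α β, max_lt hα hβ, fun t ht => ?_⟩
    rcases mem_insert_iff.mp ht with rfl | ht
    · exact hp _ _ _ (le_max_right _ _) h2
    · exact hp _ _ _ (le_max_left _ _) (h1 t ht)

theorem chain_cont {Γ : Type v} [PartialOrder Γ] (T : Dir Γ) (Rf : Ordinal.{v} → Set Γ)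
    (hRf : ∀ α β, α ≤ β → Rf α ⊆ Rf β) (g : Dir Γ → Γ) (δ : Ordinal.{v}) (hδ : 0 < δ)
    (hlim : ∀ β < δ, β + 1 < δ) (hRδ : ∀ t ∈ Rf δ, ∃ α < δ, t ∈ Rf α) :
    ∀ t ∈ (chain T Rf g δ).S, ∃ α < δ, t ∈ (chain T Rf g α).S := by
  intro t ht
  rw [chain_eq] at ht
  obtain ⟨F, hF, hFsub, htF⟩ := T.cl_fin _ t ht
  obtain ⟨α, hα, h⟩ := finite_bound δ hδ F hF
    (fun t α => t ∈ Rf α ∪ {x | ∃ β, ∃ _ : β < α, x = g (chain T Rf g β)})
    (by
      rintro t α β hαβ (h | ⟨γ, hγ, h⟩)
      · exact Or.inl (hRf _ _ hαβ h)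
      · exact Or.inr ⟨γ, hγ.trans_le hαβ, h⟩)
    (by
      intro t ht
      rcases hFsub ht with h | ⟨β, hβ, h⟩
      · obtain ⟨α, hα, h'⟩ := hRδ t h
        exact ⟨α, hα, Or.inl h'⟩
      · exact ⟨β + 1, hlim β hβ, Or.inr ⟨β, Order.lt_add_one_iff.mpr le_rfl, h⟩⟩)
  refine ⟨α, hα, ?_⟩
  rw [chain_eq]
  exact T.cl_mono h htF

theorem fd_directed {V : Type*} [AddCommGroup V] [Module 𝕜 V] [FiniteDimensional 𝕜 V]
    (T : Dir Γ) (K : Γ → Submodule 𝕜 V) (hK : ∀ s t, s ≤ t → K t ≤ K s)
    (hex : ∀ v : V, v ≠ 0 → ∃ s ∈ T.S, v ∉ K s) : ∃ t ∈ T.S, K t = ⊥ := by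
  obtain ⟨t, ht, hmin⟩ : ∃ t ∈ T.S, ∀ s ∈ T.S, Module.finrank 𝕜 (K t) ≤ Module.finrank 𝕜 (K s) := by
    have hne : (Set.image (fun t => Module.finrank 𝕜 (K t)) T.S).Nonempty := T.ne.image _
    obtain ⟨t, ht, h⟩ := Nat.sInf_mem hne
    refine ⟨t, ht, fun s hs => ?_⟩
    simp only at h
    rw [h]
    exact Nat.sInf_le ⟨s, hs, rfl⟩
  refine ⟨t, ht, ?_⟩
  rw [Submodule.eq_bot_iff]
  intro v hv
  by_contra hne
  obtain ⟨s, hs, hvs⟩ := hex v hne
  obtain ⟨r, hr, hr1, hr2⟩ := T.dir t ht s hs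
  have hlt : K r < K t := by
    refine lt_of_le_of_ne (hK t r hr1) ?_
    intro heq
    have : v ∈ K r := by rw [heq]; exact hv
    exact hvs (hK s r hr2 this)
  exact absurd (hmin r hr) (not_le.mpr (Submodule.finrank_lt_finrank_of_lt hlt))

namespace BSkel

variable (S : BSkel 𝕜 X Γ) [CompleteSpace X]

theorem witness (T : Dir Γ) (V : Submodule 𝕜 (X →L[𝕜] 𝕜)) [FiniteDimensional 𝕜 V]
    (hVT : ∀ v ∈ V, ∀ x, v (S.PT T x) = v x) (hVD : ∀ v ∈ V, v ∈ S.induced → v = 0)
    (T' : Dir Γ) (hT' : T'.S.Countable) (hsub : T'.S ⊆ T.S) :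
    ∃ t ∈ T.S, ∀ v ∈ V, v ≠ 0 → ∃ x, S.P t x = x ∧ v (S.PT T' x) ≠ v x := by
  classical
  let K : Γ → Submodule 𝕜 V := fun t =>
    { carrier := {v | ∀ x, S.P t x = x → (v : X →L[𝕜] 𝕜) (S.PT T' x) = (v : X →L[𝕜] 𝕜) x}
      add_mem' := by
        intro a b ha hb x hx
        have h1 := ha x hx
        have h2 := hb x hx
        simp only [Submodule.coe_add, add_apply]
        rw [h1, h2]
      zero_mem' := by intro x _; simp
      smul_mem' := by
        intro c a ha x hx
        have h1 := ha x hx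
        simp only [Submodule.coe_smul, smul_apply]
        rw [h1] }
  have hKanti : ∀ s t, s ≤ t → K t ≤ K s := by
    intro s t hst v hv x hx
    exact hv x (S.fix_mono hst hx)
  have hex : ∀ v : V, v ≠ 0 → ∃ s ∈ T.S, v ∉ K s := by
    intro v hne
    have hvne : (v : X →L[𝕜] 𝕜) ≠ 0 := fun h => hne (Subtype.ext h)
    by_contra hcon
    push Not at hcon
    apply hvne
    apply hVD v v.2
    have h3 : ∀ y, (v : X →L[𝕜] 𝕜) (S.PT T' (S.PT T y)) = (v : X →L[𝕜] 𝕜) (S.PT T y) := by
      intro y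
      have hc : Continuous (fun y => (v : X →L[𝕜] 𝕜) (S.PT T' y)) :=
        (v : X →L[𝕜] 𝕜).continuous.comp (S.PT T').continuous
      refine tendsto_nhds_unique ((hc.tendsto _).comp (S.tendsto_PT T y))
        ((((v : X →L[𝕜] 𝕜).continuous.tendsto _).comp (S.tendsto_PT T y)).congr' ?_)
      have : ∀ᶠ s in T.filter, (v : X →L[𝕜] 𝕜) (S.P s y) = (v : X →L[𝕜] 𝕜) (S.PT T' (S.P s y)) := by
        rw [Dir.eventually_iff]
        obtain ⟨s₀, hs₀⟩ := T.ne
        exact ⟨s₀, hs₀, fun s hs _ => (hcon s hs _ (S.proj s y)).symm⟩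
      exact this
    have h2 : (v : X →L[𝕜] 𝕜).comp (S.PT T') = v := by
      ext x
      rw [ContinuousLinearMap.comp_apply, ← S.PT_comp_left hsub, h3, hVT v v.2]
    have h1 := S.mem_of_PT_countable T' hT' (v : X →L[𝕜] 𝕜)
    rwa [h2] at h1
  obtain ⟨t, ht, hbot⟩ := fd_directed (𝕜 := 𝕜) (V := V) T K hKanti hex
  refine ⟨t, ht, fun v hv hv0 => ?_⟩
  by_contra hcon
  push Not at hcon
  apply hv0
  have : (⟨v, hv⟩ : V) ∈ K t := fun x hx => hcon x hx
  rw [hbot, Submodule.mem_bot] at this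
  exact congrArg Subtype.val this

end BSkel

namespace BSkel

variable {Γ : Type v} [PartialOrder Γ] (S : BSkel 𝕜 X Γ) [CompleteSpace X]

/-- extension of a small set of indices to a directed set of size at most `ℵ₁` which detects
that the nonzero elements of `V` are not in the induced subspace -/
theorem ext_om1 (T : Dir Γ) (V : Submodule 𝕜 (X →L[𝕜] 𝕜)) [FiniteDimensional 𝕜 V]
    (hVT : ∀ v ∈ V, ∀ x, v (S.PT T x) = v x) (hVD : ∀ v ∈ V, v ∈ S.induced → v = 0)
    (R : Set Γ) (hR : Cardinal.mk R ≤ Cardinal.aleph 1) (hRT : R ⊆ T.S) :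
    ∃ T' : Dir Γ, R ⊆ T'.S ∧ T'.S ⊆ T.S ∧ Cardinal.mk T'.S ≤ Cardinal.aleph 1 ∧
      ∀ v ∈ V, v.comp (S.PT T') ∈ S.induced → v = 0 := by
  classical
  obtain ⟨ρ, hρ1, hρ2⟩ := enum_set R
  let Rf : Ordinal.{v} → Set Γ := fun α => {t | t ∈ R ∧ ρ t < α}
  have hRf : ∀ α β, α ≤ β → Rf α ⊆ Rf β := fun α β h t ht => ⟨ht.1, ht.2.trans_le h⟩
  have hRT' : ∀ α, Rf α ⊆ T.S := fun α t ht => hRT ht.1
  have hρom : ∀ t ∈ R, ρ t < om1 := fun t ht =>
    (hρ1 t ht).trans_le (Cardinal.ord_le_ord.mpr hR)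
  have hg : ∀ T' : Dir Γ, ∃ t ∈ T.S, T'.S.Countable → T'.S ⊆ T.S → ∀ v ∈ V, v ≠ 0 →
      ∃ x, S.P t x = x ∧ v (S.PT T' x) ≠ v x := by
    intro T'
    by_cases h : T'.S.Countable ∧ T'.S ⊆ T.S
    · obtain ⟨t, ht, h'⟩ := S.witness T V hVT hVD T' h.1 h.2
      exact ⟨t, ht, fun _ _ => h'⟩
    · obtain ⟨t, ht⟩ := T.ne
      exact ⟨t, ht, fun h1 h2 => absurd ⟨h1, h2⟩ h⟩
  choose g hgT hg using hg
  have hmono := chain_mono T Rf hRf g
  have hpos : (0 : Ordinal.{v}) < om1 := om1_pos
  have hcount : ∀ α < om1, (chain T Rf g α).S.Countable := by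
    intro α hα
    rw [chain_eq]
    apply Dir.cl_countable
    apply Set.Countable.union
    · rw [← Cardinal.le_aleph0_iff_set_countable]
      refine (hρ2 α).trans ?_
      have h1 : α.card < Cardinal.aleph 1 := Cardinal.lt_ord.mp hα
      rw [← Order.lt_succ_iff, Cardinal.succ_aleph0]
      exact h1
    · have : {x | ∃ β, ∃ _ : β < α, x = g (chain T Rf g β)} =
          (fun β => g (chain T Rf g β)) '' (Set.Iio α) := by
        ext x
        constructor
        · rintro ⟨β, hβ, rfl⟩; exact ⟨β, hβ, rfl⟩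
        · rintro ⟨β, hβ, rfl⟩; exact ⟨β, hβ, rfl⟩
      rw [this]
      exact (countable_Iio_of_lt_om1 hα).image _
  have hcont := chain_cont T Rf hRf g om1 hpos (fun β hβ => om1_limit hβ) (by
    intro t ht
    exact ⟨ρ t + 1, om1_limit ht.2, ht.1, Order.lt_add_one_iff.mpr le_rfl⟩)
  refine ⟨chain T Rf g om1, ?_, chain_sub T Rf g om1, ?_, ?_⟩
  · intro t ht
    rw [chain_eq]
    exact T.sub_cl _ ⟨Or.inl ⟨ht, hρom t ht⟩, hRT ht⟩
  · rw [chain_eq]
    refine (Dir.cl_card _ _).trans ?_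
    apply max_le (Cardinal.aleph0_le_aleph 1)
    refine (Cardinal.mk_union_le _ _).trans ?_
    have h1 : Cardinal.mk (Rf om1) ≤ Cardinal.aleph 1 :=
      (Cardinal.mk_le_mk_of_subset (fun t ht => ht.1)).trans hR
    have h2 : Cardinal.mk {x | ∃ β, ∃ _ : β < om1, x = g (chain T Rf g β)} ≤
        Cardinal.aleph 1 := by
      have h3 : {x | ∃ β, ∃ _ : β < om1, x = g (chain T Rf g β)} =
          (fun β => g (chain T Rf g β)) '' (Set.Iio om1) := by
        ext x
        constructor
        · rintro ⟨β, hβ, rfl⟩; exact ⟨β, hβ, rfl⟩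
        · rintro ⟨β, hβ, rfl⟩; exact ⟨β, hβ, rfl⟩
      rw [h3]
      have h4 := Cardinal.mk_image_le_lift (f := fun β => g (chain T Rf g β)) (s := Set.Iio om1.{v})
      rw [Cardinal.mk_Iio_ordinal, Cardinal.card_ord, Cardinal.lift_lift] at h4
      have h5 : Cardinal.lift.{v + 1} (Cardinal.mk
          ((fun β => g (chain T Rf g β)) '' (Set.Iio om1.{v}) : Set Γ)) ≤
          Cardinal.lift.{v + 1} (Cardinal.aleph.{v} 1) := by simpa using h4
      exact Cardinal.lift_le.mp h5
    exact (add_le_add h1 h2).trans (Cardinal.add_eq_self (Cardinal.aleph0_le_aleph 1)).le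
  · intro v hv hvD
    by_contra hne
    obtain ⟨β, hβ, h⟩ := S.tight (chain T Rf g) hmono om1 unc_om1 hcont
      (v.comp (S.PT (chain T Rf g om1))) hvD
      (fun x => by simp only [ContinuousLinearMap.comp_apply]; rw [S.PT_idem])
      (fun α hα => S.mem_of_PT_countable _ (hcount α hα) _)
    obtain ⟨x, hx, hxne⟩ := hg (chain T Rf g β) (hcount β hβ) (chain_sub T Rf g β) v hv hne
    have hmem : g (chain T Rf g β) ∈ (chain T Rf g om1).S := by
      apply hmono (β + 1) om1 (om1_limit hβ).le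
      rw [chain_eq T Rf g (β + 1)]
      apply T.sub_cl
      exact ⟨Or.inr ⟨β, Order.lt_add_one_iff.mpr le_rfl, rfl⟩, hgT _⟩
    have h1 : S.PT (chain T Rf g om1) x = x := S.PT_fix_of_mem hmem hx
    have h2 := h x
    simp only [ContinuousLinearMap.comp_apply] at h2
    rw [S.PT_comp_right (hmono β om1 hβ.le), h1] at h2
    exact hxne h2

end BSkel

namespace BSkel

/-- precomposition with an operator -/
def pre (A : X →L[𝕜] X) : (X →L[𝕜] 𝕜) →ₗ[𝕜] (X →L[𝕜] 𝕜) where
  toFun f := f.comp A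
  map_add' := by intro f g; ext x; simp
  map_smul' := by intro c f; ext x; simp

theorem pre_apply (A : X →L[𝕜] X) (f : X →L[𝕜] 𝕜) (x : X) : pre A f x = f (A x) := rfl

variable {Γ : Type v} [PartialOrder Γ]

/-- all the indices -/
def top (S : BSkel 𝕜 X Γ) : Dir Γ where
  S := univ
  ne := by obtain ⟨s⟩ := S.nonempty; exact ⟨s, trivial⟩
  dir := by
    intro a _ b _
    obtain ⟨r, h1, h2⟩ := S.directed a b
    exact ⟨r, trivial, h1, h2⟩

theorem union_dir (S : BSkel 𝕜 X Γ) (A : Set Γ) : ∃ T : Dir Γ, A ⊆ T.S ∧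
    (Cardinal.mk A ≤ Cardinal.aleph 1 → Cardinal.mk T.S ≤ Cardinal.aleph 1) := by
  refine ⟨S.top.cl A, ?_, ?_⟩
  · have := S.top.sub_cl A
    rwa [show S.top.S = univ from rfl, inter_univ] at this
  · intro h
    exact (Dir.cl_card _ _).trans (max_le (Cardinal.aleph0_le_aleph 1) h)

variable (S : BSkel 𝕜 X Γ) [CompleteSpace X]

theorem step_one {n : ℕ} (q : (X →L[𝕜] 𝕜) →ₗ[𝕜] (Fin n → 𝕜)) (hq : Function.Surjective q)
    (hqD : ∀ f, q f = 0 ↔ f ∈ S.induced) :
    ∃ T₀ : Dir Γ, Cardinal.mk T₀.S ≤ Cardinal.aleph 1 ∧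
      ∃ σ : (Fin n → 𝕜) →ₗ[𝕜] (X →L[𝕜] 𝕜), (∀ e, q (σ e) = e) ∧
        ∀ e x, σ e (S.PT T₀ x) = σ e x := by
  obtain ⟨σ₀, hσ₀⟩ := LinearMap.exists_rightInverse_of_surjective q (LinearMap.range_eq_top.mpr hq)
  have hσ₀' : ∀ e, q (σ₀ e) = e := fun e => by
    have := congrArg (fun f => f e) hσ₀
    simpa using this
  obtain ⟨T₀, _, _, hcard, hT₀⟩ := S.ext_om1 S.top (LinearMap.range σ₀)
    (fun v _ x => by rw [S.PT_univ S.top rfl])
    (by
      rintro _ ⟨e, rfl⟩ h
      rw [← hqD, hσ₀'] at h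
      rw [h, map_zero])
    ∅ (by simp) (empty_subset _)
  let L : (Fin n → 𝕜) →ₗ[𝕜] (Fin n → 𝕜) := q ∘ₗ (pre (S.PT T₀)) ∘ₗ σ₀
  have hLinj : Function.Injective L := by
    rw [← LinearMap.ker_eq_bot, LinearMap.ker_eq_bot']
    intro e he
    have h1 : q ((σ₀ e).comp (S.PT T₀)) = 0 := he
    rw [hqD] at h1
    have h2 := hT₀ (σ₀ e) ⟨e, rfl⟩ h1
    rw [← hσ₀' e, h2, map_zero]
  let Le := LinearEquiv.ofInjectiveEndo L hLinj
  refine ⟨T₀, hcard, (pre (S.PT T₀)) ∘ₗ σ₀ ∘ₗ Le.symm.toLinearMap, ?_, ?_⟩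
  · intro e
    have : L (Le.symm e) = e := by
      exact Le.apply_symm_apply e
    exact this
  · intro e x
    simp only [LinearMap.comp_apply, pre_apply]
    rw [S.PT_idem]

/-- the property used in the contradiction argument -/
def Bad {n : ℕ} (σ : (Fin n → 𝕜) →ₗ[𝕜] (X →L[𝕜] 𝕜)) (T : Dir Γ) (K : ℕ) : Prop :=
  ∃ f ∈ S.induced, ∃ e : Fin n → 𝕜, ‖e‖ = 1 ∧ (∀ x, f (S.PT T x) = σ e x) ∧ ‖f‖ ≤ K

theorem bad_of {n : ℕ} (q : (X →L[𝕜] 𝕜) →ₗ[𝕜] (Fin n → 𝕜))
    (hqD : ∀ f, q f = 0 ↔ f ∈ S.induced) (T₀ : Dir Γ)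
    (σ : (Fin n → 𝕜) →ₗ[𝕜] (X →L[𝕜] 𝕜)) (hqσ : ∀ e, q (σ e) = e)
    (hσ : ∀ e x, σ e (S.PT T₀ x) = σ e x) (T : Dir Γ) (hT : T₀.S ⊆ T.S)
    (f : X →L[𝕜] 𝕜) (hf : f ∈ S.induced) (hfT : f.comp (S.PT T) ∉ S.induced) :
    ∃ K, S.Bad σ T K := by
  set e := q (f.comp (S.PT T)) with he
  have he0 : e ≠ 0 := by
    intro h
    rw [he, hqD] at h
    exact hfT h
  have hσT : ∀ e x, σ e (S.PT T x) = σ e x := by
    intro e x
    rw [← hσ e (S.PT T x), S.PT_comp_left hT, hσ]
  set f' := f - f.comp (S.PT T) + σ e with hf'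
  have hf'D : f' ∈ S.induced := by
    rw [← hqD, hf', map_add, map_sub, (hqD f).mpr hf, hqσ, ← he]
    simp
  have hf'T : ∀ x, f' (S.PT T x) = σ e x := by
    intro x
    simp only [hf', add_apply, sub_apply, ContinuousLinearMap.comp_apply]
    rw [S.PT_idem, hσT]
    simp
  have hen : 0 < ‖e‖ := norm_pos_iff.mpr he0
  let c : 𝕜 := ((‖e‖⁻¹ : ℝ) : 𝕜)
  obtain ⟨K, hK⟩ := exists_nat_ge ‖c • f'‖
  refine ⟨K, c • f', S.induced.smul_mem c hf'D, c • e, ?_, ?_, hK⟩
  · rw [norm_smul, RCLike.norm_ofReal, abs_of_pos (inv_pos.mpr hen), inv_mul_cancel₀ hen.ne']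
  · intro x
    rw [map_smul, smul_apply, smul_apply, hf'T]

theorem step_two {n : ℕ} (q : (X →L[𝕜] 𝕜) →ₗ[𝕜] (Fin n → 𝕜))
    (hqD : ∀ f, q f = 0 ↔ f ∈ S.induced) (T₀ : Dir Γ)
    (hT₀ : Cardinal.mk T₀.S ≤ Cardinal.aleph 1)
    (σ : (Fin n → 𝕜) →ₗ[𝕜] (X →L[𝕜] 𝕜)) (hqσ : ∀ e, q (σ e) = e)
    (hσ : ∀ e x, σ e (S.PT T₀ x) = σ e x) :
    ∃ Ti : Dir Γ, Cardinal.mk Ti.S ≤ Cardinal.aleph 1 ∧
      ∀ T : Dir Γ, Ti.S ⊆ T.S → Cardinal.mk T.S ≤ Cardinal.aleph 1 →
        ∀ f ∈ S.induced, f.comp (S.PT T) ∈ S.induced := by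
  by_contra hcon
  push Not at hcon
  -- a uniform bound
  have h2 : ∃ K, ∀ T : Dir Γ, T₀.S ⊆ T.S → Cardinal.mk T.S ≤ Cardinal.aleph 1 →
      ∃ T' : Dir Γ, T.S ⊆ T'.S ∧ Cardinal.mk T'.S ≤ Cardinal.aleph 1 ∧ S.Bad σ T' K := by
    by_contra h
    push Not at h
    choose TK hTK1 hTK2 hTK3 using h
    obtain ⟨Ti, hTi1, hTi2⟩ := S.union_dir (⋃ K, (TK K).S)
    have hcard : Cardinal.mk (⋃ K, (TK K).S) ≤ Cardinal.aleph 1 := by
      have h3 := Cardinal.mk_iUnion_le_lift (fun K => (TK K).S)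
      rw [Cardinal.lift_uzero, Cardinal.mk_nat, Cardinal.lift_aleph0] at h3
      refine h3.trans ?_
      have h4 : ⨆ i, Cardinal.lift.{0} (Cardinal.mk (TK i).S) ≤ Cardinal.aleph 1 := by
        apply ciSup_le'
        intro n
        rw [Cardinal.lift_uzero]
        exact hTK2 n
      exact (mul_le_mul' (Cardinal.aleph0_le_aleph 1) h4).trans
        (Cardinal.mul_eq_self (Cardinal.aleph0_le_aleph 1)).le
    obtain ⟨T, hT1, hT2, f, hf, hfT⟩ := hcon Ti (hTi2 hcard)
    have hTKi : ∀ K, (TK K).S ⊆ T.S := fun K =>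
      (subset_iUnion (fun K => (TK K).S) K).trans (hTi1.trans hT1)
    obtain ⟨K, hK⟩ := S.bad_of q hqD T₀ σ hqσ hσ T ((hTK1 0).trans (hTKi 0)) f hf hfT
    exact hTK3 K T (hTKi K) hT2 hK
  obtain ⟨K, hK⟩ := h2
  -- the recursive step
  have hstep : ∀ T : Dir Γ, ∃ (A : Dir Γ) (f : X →L[𝕜] 𝕜) (e : Fin n → 𝕜) (t : Γ) (T' : Dir Γ),
      T₀.S ⊆ T.S → Cardinal.mk T.S ≤ Cardinal.aleph 1 →
      (T.S ⊆ A.S ∧ A.S ⊆ T'.S ∧ t ∈ T'.S ∧ Cardinal.mk T'.S ≤ Cardinal.aleph 1 ∧
        f ∈ S.induced ∧ ‖e‖ = 1 ∧ (∀ x, f (S.PT A x) = σ e x) ∧ ‖f‖ ≤ K ∧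
        (∀ x, f (S.P t x) = f x)) := by
    intro T
    by_cases h : T₀.S ⊆ T.S ∧ Cardinal.mk T.S ≤ Cardinal.aleph 1
    · obtain ⟨A, hA1, hA2, f, hf, e, he, hfe, hfK⟩ := hK T h.1 h.2
      obtain ⟨t, ht⟩ := (S.mem_induced f).mp hf
      obtain ⟨T', hT'1, hT'2⟩ := S.union_dir (A.S ∪ {t})
      refine ⟨A, f, e, t, T', fun _ _ => ⟨hA1, subset_union_left.trans hT'1,
        hT'1 (Or.inr rfl), hT'2 ?_, hf, he, hfe, hfK, ht⟩⟩
      refine (Cardinal.mk_union_le _ _).trans ?_
      have h1 : Cardinal.mk ({t} : Set Γ) ≤ Cardinal.aleph 1 := by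
        rw [Cardinal.mk_singleton]
        exact Cardinal.one_le_aleph0.trans (Cardinal.aleph0_le_aleph 1)
      exact (add_le_add hA2 h1).trans (Cardinal.add_eq_self (Cardinal.aleph0_le_aleph 1)).le
    · obtain ⟨t⟩ := S.nonempty
      exact ⟨T, 0, 0, t, T, fun h1 h2 => absurd ⟨h1, h2⟩ h⟩
  choose A f e t nx hnx using hstep
  let Tn : ℕ → Dir Γ := fun k => Nat.rec T₀ (fun _ T => nx T) k
  have hTn : ∀ k, Tn (k + 1) = nx (Tn k) := fun k => rfl
  have hcl : ∀ k, T₀.S ⊆ (Tn k).S ∧ Cardinal.mk (Tn k).S ≤ Cardinal.aleph 1 := by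
    intro k
    induction k with
    | zero => exact ⟨Subset.rfl, hT₀⟩
    | succ k ih =>
      obtain ⟨h1, h2, _, h4, _⟩ := hnx (Tn k) ih.1 ih.2
      rw [hTn]
      exact ⟨ih.1.trans (h1.trans h2), h4⟩
  have hnx' := fun k => hnx (Tn k) (hcl k).1 (hcl k).2
  have hTmono : ∀ k m, k ≤ m → (Tn k).S ⊆ (Tn m).S := by
    intro k m hkm
    induction m, hkm using Nat.le_induction with
    | base => exact Subset.rfl
    | succ m _ ih =>
      rw [hTn]
      exact ih.trans ((hnx' m).1.trans (hnx' m).2.1)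
  let To : Dir Γ :=
    { S := ⋃ k, (Tn k).S
      ne := by
        obtain ⟨s, hs⟩ := (Tn 0).ne
        exact ⟨s, mem_iUnion.mpr ⟨0, hs⟩⟩
      dir := by
        intro a ha b hb
        obtain ⟨k, hk⟩ := mem_iUnion.mp ha
        obtain ⟨m, hm⟩ := mem_iUnion.mp hb
        obtain ⟨c, hc, h1, h2⟩ := (Tn (max k m)).dir a (hTmono _ _ (le_max_left k m) hk) b
          (hTmono _ _ (le_max_right k m) hm)
        exact ⟨c, mem_iUnion.mpr ⟨_, hc⟩, h1, h2⟩ }
  have hTnTo : ∀ k, (Tn k).S ⊆ To.S := fun k => subset_iUnion (fun k => (Tn k).S) k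
  have htTo : ∀ k, t (Tn k) ∈ To.S := fun k => hTnTo (k + 1) (hnx' k).2.2.1
  have hfTo : ∀ k x, f (Tn k) (S.PT To x) = f (Tn k) x := by
    intro k x
    obtain ⟨_, _, _, _, _, _, _, _, h9⟩ := hnx' k
    rw [← h9 (S.PT To x), S.P_PT (htTo k), h9]
  have hσTo : ∀ e x, σ e (S.PT To x) = σ e x := by
    intro e x
    have hT0To : T₀.S ⊆ To.S := hTnTo 0
    rw [← hσ e (S.PT To x), S.PT_comp_left hT0To, hσ]
  -- boundedness of `σ`
  let σc : (Fin n → 𝕜) →L[𝕜] (X →L[𝕜] 𝕜) := LinearMap.toContinuousLinearMap σ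
  have hσc : ∀ e, σc e = σ e := fun e => rfl
  have hσnorm : ∀ k, ‖σ (e (Tn k))‖ ≤ ‖σc‖ := by
    intro k
    rw [← hσc]
    have := σc.le_opNorm (e (Tn k))
    rwa [(hnx' k).2.2.2.2.2.1, mul_one] at this
  -- convergence of the difference
  have hdiff : ∀ x, Tendsto (fun k => f (Tn k) x - σ (e (Tn k)) x) atTop (𝓝 0) := by
    intro x
    rw [Metric.tendsto_atTop]
    intro ε hε
    have hden : 0 < (K : ℝ) + ‖σc‖ + 1 := by positivity
    obtain ⟨s, hs, h, _⟩ := S.approx To x (ε / (K + ‖σc‖ + 1)) (by positivity)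
    obtain ⟨m, hm⟩ := mem_iUnion.mp hs
    refine ⟨m, fun k hk => ?_⟩
    rw [dist_eq_norm, sub_zero]
    obtain ⟨h1, _, _, _, _, _, h7, h8, _⟩ := hnx' k
    have hfix : S.PT (A (Tn k)) (S.P s x) = S.P s x := S.PT_P (h1 (hTmono _ _ hk hm)) x
    have hy : f (Tn k) (S.P s x) = σ (e (Tn k)) (S.P s x) := by
      conv_lhs => rw [← hfix]
      exact h7 _
    have heq : f (Tn k) x - σ (e (Tn k)) x =
        σ (e (Tn k)) (S.P s x - S.PT To x) - f (Tn k) (S.P s x - S.PT To x) := by
      rw [map_sub, map_sub, hy, hfTo, hσTo]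
      ring
    rw [heq]
    have hd := h s hs le_rfl
    calc ‖σ (e (Tn k)) (S.P s x - S.PT To x) - f (Tn k) (S.P s x - S.PT To x)‖
        ≤ ‖σ (e (Tn k)) (S.P s x - S.PT To x)‖ + ‖f (Tn k) (S.P s x - S.PT To x)‖ :=
          norm_sub_le _ _
      _ ≤ ‖σc‖ * ‖S.P s x - S.PT To x‖ + K * ‖S.P s x - S.PT To x‖ := by
          apply add_le_add
          · exact ((σ (e (Tn k))).le_opNorm _).trans
              (mul_le_mul_of_nonneg_right (hσnorm k) (norm_nonneg _))
          · exact ((f (Tn k)).le_opNorm _).trans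
              (mul_le_mul_of_nonneg_right h8 (norm_nonneg _))
      _ ≤ (K + ‖σc‖ + 1) * ‖S.P s x - S.PT To x‖ := by
          have := norm_nonneg (S.P s x - S.PT To x)
          nlinarith
      _ < (K + ‖σc‖ + 1) * (ε / (K + ‖σc‖ + 1)) := mul_lt_mul_of_pos_left hd hden
      _ = ε := by field_simp
  -- a convergent subsequence
  obtain ⟨e', he', φ, hφ, hlim⟩ := (isCompact_sphere (0 : Fin n → 𝕜) 1).tendsto_subseq
    (x := fun k => e (Tn k)) (fun k => by
      rw [mem_sphere_zero_iff_norm]; exact (hnx' k).2.2.2.2.2.1)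
  rw [mem_sphere_zero_iff_norm] at he'
  have hpt : ∀ x, Tendsto (fun k => f (Tn (φ k)) x) atTop (𝓝 (σ e' x)) := by
    intro x
    have h1 := (hdiff x).comp hφ.tendsto_atTop
    have h2 : Tendsto (fun k => σ (e (Tn (φ k))) x) atTop (𝓝 (σ e' x)) := by
      have h3 : Continuous (fun e => σc e x) := by fun_prop
      exact (h3.tendsto e').comp hlim
    have h4 := h1.add h2
    rw [zero_add] at h4
    refine h4.congr ?_
    intro k
    simp
  obtain ⟨s, hs⟩ := S.common_index (fun k => f (Tn k)) (fun k => (hnx' k).2.2.2.2.1)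
  have hmem : σ e' ∈ S.induced := by
    rw [S.mem_induced]
    refine ⟨s, fun x => ?_⟩
    refine tendsto_nhds_unique (hpt (S.P s x)) ((hpt x).congr ?_)
    intro k
    exact (hs (φ k) x).symm
  rw [← hqD, hqσ] at hmem
  rw [hmem, norm_zero] at he'
  exact zero_ne_one he'

theorem step_three {n : ℕ} (q : (X →L[𝕜] 𝕜) →ₗ[𝕜] (Fin n → 𝕜)) (hq : Function.Surjective q)
    (hqD : ∀ f, q f = 0 ↔ f ∈ S.induced) :
    ∃ Ti : Dir Γ, Cardinal.mk Ti.S ≤ Cardinal.aleph 1 ∧
      ∀ T : Dir Γ, Ti.S ⊆ T.S → ∀ f ∈ S.induced, f.comp (S.PT T) ∈ S.induced := by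
  obtain ⟨T₀, hT₀, σ, hqσ, hσ⟩ := S.step_one q hq hqD
  obtain ⟨Ti, hTi, h⟩ := S.step_two q hqD T₀ hT₀ σ hqσ hσ
  refine ⟨Ti, hTi, fun T hT f hf => ?_⟩
  by_contra hcon
  obtain ⟨T', h1, h2, h3, h4⟩ := S.ext_om1 T (Submodule.span 𝕜 {f.comp (S.PT T)})
    (by
      intro v hv x
      obtain ⟨c, rfl⟩ := Submodule.mem_span_singleton.mp hv
      simp only [smul_apply, ContinuousLinearMap.comp_apply]
      rw [S.PT_idem])
    (by
      intro v hv hvD
      obtain ⟨c, rfl⟩ := Submodule.mem_span_singleton.mp hv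
      by_cases hc : c = 0
      · rw [hc, zero_smul]
      · exfalso
        apply hcon
        have := S.induced.smul_mem c⁻¹ hvD
        rwa [smul_smul, inv_mul_cancel₀ hc, one_smul] at this)
    Ti.S hTi hT
  have h5 := h T' h1 h3 f hf
  have h6 : (f.comp (S.PT T)).comp (S.PT T') = f.comp (S.PT T') := by
    ext x
    simp only [ContinuousLinearMap.comp_apply]
    rw [S.PT_comp_right h2]
  have h7 := h4 _ (Submodule.mem_span_singleton_self _) (by rw [h6]; exact h5)
  apply hcon
  rw [h7]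
  exact S.induced.zero_mem

/-- The statement proved by transfinite induction. -/
def Good (T : Dir Γ) : Prop :=
  ∃ M : Set X, (∀ m ∈ M, S.PT T m = m) ∧
    (∀ x, S.PT T x ∈ closure (Submodule.span 𝕜 M : Set X)) ∧
    ∀ f : X →L[𝕜] 𝕜, f.comp (S.PT T) ∈ S.induced ↔ {m | m ∈ M ∧ f m ≠ 0}.Countable

theorem good_countable (T : Dir Γ) (hT : T.S.Countable) : S.Good T := by
  obtain ⟨s, _, hs⟩ := S.PT_countable T hT
  obtain ⟨c, hc, hcs⟩ := S.separable s
  refine ⟨S.P s '' c, ?_, ?_, ?_⟩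
  · rintro _ ⟨x, _, rfl⟩
    rw [hs, S.proj]
  · intro x
    have h1 : S.PT T x ∈ closure (S.P s '' c) := by
      rw [hs, ← S.proj]
      exact image_closure_subset_closure_image (S.P s).continuous
        ⟨S.P s x, hcs ⟨x, rfl⟩, rfl⟩
    exact closure_mono Submodule.subset_span h1
  · intro f
    constructor
    · intro _
      exact (hc.image _).mono (fun m hm => hm.1)
    · intro _
      exact S.mem_of_PT_countable T hT f

/-- convergence of the projections of a chain at a limit ordinal -/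
theorem approx_chain (Tc : Ordinal.{v} → Dir Γ) (hmono : ∀ α β, α ≤ β → (Tc α).S ⊆ (Tc β).S)
    (δ : Ordinal.{v}) (hcont : ∀ t ∈ (Tc δ).S, ∃ α < δ, t ∈ (Tc α).S) (x : X) (ε : ℝ)
    (hε : 0 < ε) : ∃ β < δ, ∀ α, β ≤ α → α ≤ δ → ‖S.PT (Tc α) x - S.PT (Tc δ) x‖ ≤ ε := by
  obtain ⟨t, ht, _, h⟩ := S.approx (Tc δ) x ε hε
  obtain ⟨β, hβ, htβ⟩ := hcont t ht
  exact ⟨β, hβ, fun α h1 h2 => h (Tc α) (hmono _ _ h1 htβ) (hmono _ _ h2)⟩

theorem not_unc {δ : Ordinal.{v}} (h : ¬ UncCof δ) :
    ∃ u : ℕ → Ordinal.{v}, (∀ n, u n < δ) ∧ ∀ β < δ, ∃ n, β ≤ u n := by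
  unfold UncCof at h
  push Not at h
  exact h

section step

variable (T : Dir Γ) (δ₀ : Ordinal.{v}) (Tc : Ordinal.{v} → Dir Γ)

theorem good_step (hpos : 0 < δ₀) (hlim : ∀ β < δ₀, β + 1 < δ₀)
    (hmono : ∀ α β, α ≤ β → (Tc α).S ⊆ (Tc β).S) (hTδ : Tc δ₀ = T)
    (hcont : ∀ δ, 0 < δ → (∀ β < δ, β + 1 < δ) → δ ≤ δ₀ →
      ∀ t ∈ (Tc δ).S, ∃ α < δ, t ∈ (Tc α).S)
    (hgood : ∀ α < δ₀, S.Good (Tc α))
    (hD : ∀ f : X →L[𝕜] 𝕜, f.comp (S.PT T) ∈ S.induced →
      ∀ α ≤ δ₀, f.comp (S.PT (Tc α)) ∈ S.induced)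
    (hDT : ∀ f ∈ S.induced, f.comp (S.PT T) ∈ S.induced) : S.Good T := by
  classical
  have hM : ∀ α, ∃ M : Set X, α < δ₀ → (∀ m ∈ M, S.PT (Tc α) m = m) ∧
      (∀ x, S.PT (Tc α) x ∈ closure (Submodule.span 𝕜 M : Set X)) ∧
      ∀ f : X →L[𝕜] 𝕜, f.comp (S.PT (Tc α)) ∈ S.induced ↔ {m | m ∈ M ∧ f m ≠ 0}.Countable := by
    intro α
    by_cases hα : α < δ₀
    · obtain ⟨M, h⟩ := hgood α hα
      exact ⟨M, fun _ => h⟩
    · exact ⟨∅, fun h => absurd h hα⟩
  choose Mf hMf using hM
  let R : Ordinal.{v} → (X →L[𝕜] X) := fun α => S.PT (Tc (α + 1)) - S.PT (Tc α)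
  have hle1 : ∀ α : Ordinal.{v}, α ≤ α + 1 := fun α => (Order.lt_add_one_iff.mpr le_rfl).le
  have hsubT : ∀ α ≤ δ₀, (Tc α).S ⊆ T.S := fun α hα => by
    rw [← hTδ]; exact hmono _ _ hα
  have hRapp : ∀ α x, R α x = S.PT (Tc (α + 1)) x - S.PT (Tc α) x := fun α x => rfl
  have hR1 : ∀ α x, R α (S.PT (Tc (α + 1)) x) = R α x := by
    intro α x
    rw [hRapp, hRapp, S.PT_idem, S.PT_comp_left (hmono _ _ (hle1 α))]
  have hR2 : ∀ α x, S.PT (Tc (α + 1)) (R α x) = R α x := by
    intro α x
    rw [hRapp, map_sub, S.PT_idem, S.PT_comp_right (hmono _ _ (hle1 α))]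
  have hR3 : ∀ α β x, α < β → S.PT (Tc (α + 1)) (R β x) = 0 := by
    intro α β x hαβ
    have h1 : α + 1 ≤ β := Order.add_one_le_of_lt hαβ
    rw [hRapp, map_sub, S.PT_comp_left (hmono _ _ (h1.trans (hle1 β))),
      S.PT_comp_left (hmono _ _ h1), sub_self]
  have hR4 : ∀ α ≤ δ₀, ∀ β, β + 1 ≤ α → ∀ x, S.PT (Tc α) (R β x) = R β x := by
    intro α _ β hβ x
    rw [hRapp, map_sub, S.PT_comp_right (hmono _ _ hβ),
      S.PT_comp_right (hmono _ _ ((hle1 β).trans hβ))]
  let M : Set X := {x | x ∈ Mf 0 ∨ ∃ α, α < δ₀ ∧ ∃ m ∈ Mf (α + 1), x = R α m}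
  -- the functionals `f ∘ R α`
  have hfR : ∀ (f : X →L[𝕜] 𝕜) α, f.comp (R α) =
      f.comp (S.PT (Tc (α + 1))) - f.comp (S.PT (Tc α)) := by
    intro f α
    ext x
    simp only [ContinuousLinearMap.comp_apply, sub_apply]
    rw [hRapp, map_sub]
  have hfR' : ∀ (f : X →L[𝕜] 𝕜) α, (f.comp (R α)).comp (S.PT (Tc (α + 1))) = f.comp (R α) := by
    intro f α
    ext x
    simp only [ContinuousLinearMap.comp_apply]
    rw [hR1]
  refine ⟨M, ?_, ?_, ?_⟩
  · -- fixed points
    rintro m (hm | ⟨α, hα, m', hm', rfl⟩)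
    · rw [← (hMf 0 hpos).1 m hm]
      exact S.PT_comp_right (hsubT 0 hpos.le) m
    · rw [← hTδ]
      exact hR4 δ₀ le_rfl α (hlim α hα).le m'
  · -- density of the span
    have hW : ∀ α, α ≤ δ₀ → ∀ x, S.PT (Tc α) x ∈ closure (Submodule.span 𝕜 M : Set X) := by
      intro α
      induction α using WellFoundedLT.induction with
      | ind α ih =>
        intro hα x
        rcases Ordinal.zero_or_succ_or_isSuccLimit α with h0 | ⟨β, hβ⟩ | hαlim
        · rw [h0]
          exact closure_mono (Submodule.span_mono (fun m hm => Or.inl hm)) ((hMf 0 hpos).2.1 x)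
        · have hβ' : α = β + 1 := hβ.symm
          subst hβ'
          have hβα : β < β + 1 := Order.lt_add_one_iff.mpr le_rfl
          have hβδ : β < δ₀ := hβα.trans_le hα
          have h1 := ih β hβα hβδ.le x
          have h2 : R β x ∈ closure (Submodule.span 𝕜 M : Set X) := by
            rw [← hR1]
            have h3 := (hMf (β + 1) (hlim β hβδ)).2.1 x
            have h4 : closure (Submodule.span 𝕜 (Mf (β + 1)) : Set X) ⊆
                (R β) ⁻¹' (closure (Submodule.span 𝕜 M : Set X)) := by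
              apply closure_minimal
              · intro y hy
                apply subset_closure
                have h5 : Submodule.span 𝕜 (Mf (β + 1)) ≤
                    (Submodule.span 𝕜 M).comap (R β).toLinearMap := by
                  rw [Submodule.span_le]
                  intro m hm
                  exact Submodule.subset_span (Or.inr ⟨β, hβδ, m, hm, rfl⟩)
                exact h5 hy
              · exact isClosed_closure.preimage (R β).continuous
            exact h4 h3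
          have h6 : S.PT (Tc (β + 1)) x = S.PT (Tc β) x + R β x := by
            rw [hRapp]; abel
          rw [h6]
          exact (Submodule.span 𝕜 M).topologicalClosure.add_mem h1 h2
        · have hα0 : 0 < α := by
            rcases eq_or_ne α 0 with h | h
            · rw [h] at hαlim
              exact absurd hαlim (by simp)
            · exact pos_iff_ne_zero.mpr h
          have hαl : ∀ β < α, β + 1 < α := fun β hβ => hαlim.add_one_lt hβ
          rw [← closure_closure, Metric.mem_closure_iff]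
          intro ε hε
          obtain ⟨β, hβ, h⟩ := S.approx_chain Tc hmono α (hcont α hα0 hαl hα) x (ε / 2)
            (by positivity)
          refine ⟨S.PT (Tc β) x, ih β hβ (hβ.le.trans hα) x, ?_⟩
          rw [dist_comm, dist_eq_norm]
          have := h β le_rfl hβ.le
          linarith
    intro x
    rw [← hTδ]
    exact hW δ₀ le_rfl x
  · intro f
    constructor
    · -- from membership to countable support
      intro hf
      have hfc := hD f hf
      let A : Set Ordinal.{v} := {α | α < δ₀ ∧ ∃ x, f (R α x) ≠ 0}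
      have hA : A.Countable := by
        by_contra hAun
        -- the least ordinal below which `A` is uncountable
        have hex : ({δ | ¬ {α | α ∈ A ∧ α < δ}.Countable} : Set Ordinal.{v}).Nonempty := by
          refine ⟨δ₀, fun h => hAun (h.mono ?_)⟩
          intro α hα
          exact ⟨hα, hα.1⟩
        obtain ⟨δ, hδ, hmin⟩ := WellFounded.has_min
          (r := fun a b : Ordinal.{v} => a < b) Ordinal.lt_wf _ hex
        have hlt : ∀ β < δ, {α | α ∈ A ∧ α < β}.Countable := by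
          intro β hβ
          by_contra h
          exact hmin β h hβ
        have hle : ∀ β < δ, {α | α ∈ A ∧ α ≤ β}.Countable := by
          intro β hβ
          refine ((hlt β hβ).union (countable_singleton β)).mono ?_
          rintro α ⟨h1, h2⟩
          rcases eq_or_lt_of_le h2 with h | h
          · exact Or.inr h
          · exact Or.inl ⟨h1, h⟩
        have hδδ₀ : δ ≤ δ₀ := by
          by_contra h
          refine hmin δ₀ (fun h' => hAun (h'.mono ?_)) (not_le.mp h)
          intro α hα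
          exact ⟨hα, hα.1⟩
        have hunc : UncCof δ := by
          by_contra h
          obtain ⟨u, hu1, hu2⟩ := not_unc h
          apply hδ
          refine (countable_iUnion fun n => hle (u n) (hu1 n)).mono ?_
          rintro α ⟨h1, h2⟩
          obtain ⟨n, hn⟩ := hu2 α h2
          exact mem_iUnion.mpr ⟨n, h1, hn⟩
        have hδ0 : 0 < δ := by
          by_contra h
          have h0 : δ = 0 := le_antisymm (not_lt.mp h) zero_le
          apply hδ
          rw [h0]
          refine countable_empty.mono ?_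
          rintro α ⟨_, h2⟩
          exact absurd h2 (not_lt.mpr zero_le)
        have hδl : ∀ β < δ, β + 1 < δ := by
          intro β hβ
          by_contra h
          have h1 : δ ≤ β + 1 := not_lt.mp h
          apply hδ
          refine (hle β hβ).mono ?_
          rintro α ⟨h2, h3⟩
          exact ⟨h2, Order.lt_add_one_iff.mp (h3.trans_le h1)⟩
        obtain ⟨β, hβ, hβz⟩ := S.tight Tc hmono δ hunc (hcont δ hδ0 hδl hδδ₀)
          (f.comp (S.PT (Tc δ))) (hfc δ hδδ₀)
          (fun x => by simp only [ContinuousLinearMap.comp_apply]; rw [S.PT_idem])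
          (fun α hα => by
            have h1 : (f.comp (S.PT (Tc δ))).comp (S.PT (Tc α)) = f.comp (S.PT (Tc α)) := by
              ext x
              simp only [ContinuousLinearMap.comp_apply]
              rw [S.PT_comp_right (hmono _ _ hα.le)]
            rw [h1]
            exact hfc α (hα.le.trans hδδ₀))
        have hβz' : ∀ x, f (S.PT (Tc β) x) = f (S.PT (Tc δ) x) := by
          intro x
          have := hβz x
          simp only [ContinuousLinearMap.comp_apply] at this
          rwa [S.PT_comp_right (hmono _ _ hβ.le)] at this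
        have hconst : ∀ α, β ≤ α → α ≤ δ → ∀ x, f (S.PT (Tc α) x) = f (S.PT (Tc δ) x) := by
          intro α h1 h2 x
          have h3 := hβz' (S.PT (Tc α) x)
          rw [S.PT_comp_left (hmono _ _ h1), S.PT_comp_right (hmono _ _ h2)] at h3
          rw [← h3, hβz']
        apply hδ
        refine (hlt β hβ).mono ?_
        rintro α ⟨h1, h2⟩
        refine ⟨h1, ?_⟩
        by_contra h3
        obtain ⟨_, x, hx⟩ := h1
        apply hx
        rw [hRapp, map_sub, hconst (α + 1) ((not_lt.mp h3).trans (hle1 α)) (hδl α h2).le,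
          hconst α (not_lt.mp h3) h2.le, sub_self]
      -- countability of the support
      have h0 : {m | m ∈ Mf 0 ∧ f m ≠ 0}.Countable := ((hMf 0 hpos).2.2 f).mp (hfc 0 hpos.le)
      have h1 : ∀ α ∈ A, {m | m ∈ Mf (α + 1) ∧ (f.comp (R α)) m ≠ 0}.Countable := by
        intro α hα
        apply ((hMf (α + 1) (hlim α hα.1)).2.2 (f.comp (R α))).mp
        rw [hfR', hfR]
        exact S.induced.sub_mem (hfc _ (hlim α hα.1).le) (hfc _ hα.1.le)
      refine (h0.union (hA.biUnion fun α hα => (h1 α hα).image (R α))).mono ?_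
      rintro m ⟨hm | ⟨α, hα, m', hm', rfl⟩, hfm⟩
      · exact Or.inl ⟨hm, hfm⟩
      · right
        refine mem_biUnion (show α ∈ A from ⟨hα, m', hfm⟩) ?_
        exact ⟨m', ⟨hm', hfm⟩, rfl⟩
    · -- from countable support to membership
      intro hN
      have hmain : ∀ α, α ≤ δ₀ → f.comp (S.PT (Tc α)) ∈ S.induced := by
        intro α
        induction α using WellFoundedLT.induction with
        | ind α ih =>
          intro hα
          rcases Ordinal.zero_or_succ_or_isSuccLimit α with h0 | ⟨β, hβ⟩ | hαlim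
          · rw [h0]
            apply ((hMf 0 hpos).2.2 f).mpr
            refine hN.mono ?_
            intro m hm
            exact ⟨Or.inl hm.1, hm.2⟩
          · have hβ' : α = β + 1 := hβ.symm
            subst hβ'
            have hβα : β < β + 1 := Order.lt_add_one_iff.mpr le_rfl
            have hβδ : β < δ₀ := hβα.trans_le hα
            have h1 := ih β hβα hβδ.le
            have h2 : (f.comp (R β)).comp (S.PT (Tc (β + 1))) ∈ S.induced := by
              apply ((hMf (β + 1) (hlim β hβδ)).2.2 (f.comp (R β))).mpr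
              -- fibres over the countable support
              have hfib : ∀ v ∈ {m | m ∈ M ∧ f m ≠ 0},
                  {m' | m' ∈ Mf (β + 1) ∧ R β m' = v}.Countable := by
                rintro v ⟨_, hv⟩
                have hv0 : v ≠ 0 := fun h => hv (by rw [h, map_zero])
                have hex : ∃ h ∈ S.induced, h v ≠ 0 := by
                  by_contra hcon
                  push Not at hcon
                  exact hv0 (S.separates v hcon)
                obtain ⟨h, hh, hhv⟩ := hex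
                have h3 : (h.comp (R β)).comp (S.PT (Tc (β + 1))) ∈ S.induced := by
                  rw [hfR', hfR]
                  exact S.induced.sub_mem (hD h (hDT h hh) _ hα) (hD h (hDT h hh) _ hβδ.le)
                have h4 := ((hMf (β + 1) (hlim β hβδ)).2.2 (h.comp (R β))).mp h3
                refine h4.mono ?_
                rintro m' ⟨hm', hm'v⟩
                refine ⟨hm', ?_⟩
                rw [ContinuousLinearMap.comp_apply, hm'v]
                exact hhv
              refine (hN.biUnion hfib).mono ?_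
              rintro m' ⟨hm', hfm'⟩
              exact mem_biUnion (show R β m' ∈ {m | m ∈ M ∧ f m ≠ 0} from
                ⟨Or.inr ⟨β, hβδ, m', hm', rfl⟩, hfm'⟩) ⟨hm', rfl⟩
            rw [hfR', hfR] at h2
            have h5 := S.induced.add_mem h1 h2
            rwa [add_sub_cancel] at h5
          · have hα0 : 0 < α := by
              rcases eq_or_ne α 0 with h | h
              · rw [h] at hαlim
                exact absurd hαlim (by simp)
              · exact pos_iff_ne_zero.mpr h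
            have hαl : ∀ β < α, β + 1 < α := fun β hβ => hαlim.add_one_lt hβ
            have hcα := hcont α hα0 hαl hα
            by_cases hunc : UncCof α
            · -- uncountable cofinality
              let A : Set Ordinal.{v} := {β | β < δ₀ ∧ ∃ x, f (R β x) ≠ 0}
              have hw : ∀ β, ∃ m', β ∈ A → m' ∈ Mf (β + 1) ∧ f (R β m') ≠ 0 := by
                intro β
                by_cases hβ : β ∈ A
                · by_contra hcon
                  push Not at hcon
                  obtain ⟨hβδ, x, hx⟩ := hβ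
                  apply hx
                  have h3 := (hMf (β + 1) (hlim β hβδ)).2.1 x
                  have h4 : closure (Submodule.span 𝕜 (Mf (β + 1)) : Set X) ⊆
                      {y | f (R β y) = 0} := by
                    apply closure_minimal
                    · intro y hy
                      have h5 : Submodule.span 𝕜 (Mf (β + 1)) ≤
                          LinearMap.ker (f.comp (R β)).toLinearMap := by
                        rw [Submodule.span_le]
                        intro m hm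
                        exact (hcon m).2 hm
                      exact h5 hy
                    · exact isClosed_eq (f.continuous.comp (R β).continuous) continuous_const
                  have h6 := h4 h3
                  rw [mem_ofPred_eq, hR1] at h6
                  exact h6
                · exact ⟨0, fun h => absurd h hβ⟩
              choose w hw using hw
              have hinj : InjOn (fun β => R β (w β)) A := by
                intro β hβ γ hγ hβγ
                simp only at hβγ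
                have haux : ∀ β ∈ A, ∀ γ, R β (w β) = R γ (w γ) → ¬ β < γ := by
                  intro β hβ γ h1 h2
                  apply (hw β hβ).2
                  rw [← hR2, h1, hR3 β γ _ h2, map_zero]
                rcases lt_trichotomy β γ with h | h | h
                · exact absurd h (haux β hβ γ hβγ)
                · exact h
                · exact absurd h (haux γ hγ β hβγ.symm)
              have hA : A.Countable := by
                apply countable_of_injective_of_countable_image hinj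
                refine hN.mono ?_
                rintro _ ⟨β, hβ, rfl⟩
                exact ⟨Or.inr ⟨β, hβ.1, w β, (hw β hβ).1, rfl⟩, (hw β hβ).2⟩
              have hbd : ∃ γ < α, ∀ β ∈ A, β < α → β < γ := by
                have hA' : {β | β ∈ A ∧ β < α}.Countable := hA.mono fun β hβ => hβ.1
                rcases {β | β ∈ A ∧ β < α}.eq_empty_or_nonempty with he | hne
                · refine ⟨0, hα0, fun β h1 h2 => ?_⟩
                  have : β ∈ {β | β ∈ A ∧ β < α} := ⟨h1, h2⟩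
                  rw [he] at this
                  exact absurd this (notMem_empty β)
                · obtain ⟨u, hu⟩ := hA'.exists_eq_range hne
                  have hu' : ∀ n, u n < α := fun n => by
                    have : u n ∈ {β | β ∈ A ∧ β < α} := by rw [hu]; exact ⟨n, rfl⟩
                    exact this.2
                  obtain ⟨γ, hγ, hγu⟩ := hunc u hu'
                  refine ⟨γ, hγ, fun β h1 h2 => ?_⟩
                  have : β ∈ range u := by rw [← hu]; exact ⟨h1, h2⟩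
                  obtain ⟨n, rfl⟩ := this
                  exact hγu n
              obtain ⟨γ, hγ, hγA⟩ := hbd
              have hconst : ∀ β, γ ≤ β → β ≤ α → ∀ x, f (S.PT (Tc β) x) = f (S.PT (Tc γ) x) := by
                intro β
                induction β using WellFoundedLT.induction with
                | ind β ihβ =>
                  intro h1 h2 x
                  rcases eq_or_lt_of_le h1 with h | h
                  · rw [h]
                  · rcases Ordinal.zero_or_succ_or_isSuccLimit β with h0 | ⟨η, hη⟩ | hβlim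
                    · rw [h0] at h
                      exact absurd h (not_lt.mpr zero_le)
                    · have hη' : β = η + 1 := hη.symm
                      subst hη'
                      have hηβ : η < η + 1 := Order.lt_add_one_iff.mpr le_rfl
                      have hγη : γ ≤ η := Order.lt_add_one_iff.mp h
                      have h3 := ihβ η hηβ hγη (hηβ.le.trans h2) x
                      rw [← h3]
                      by_contra h4
                      have h5 : f (R η x) ≠ 0 := by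
                        rw [hRapp, map_sub]
                        exact sub_ne_zero.mpr h4
                      have h6 : η ∈ A := ⟨hηβ.trans_le (h2.trans hα), x, h5⟩
                      exact absurd (hγA η h6 (hηβ.trans_le h2)) (not_lt.mpr hγη)
                    · have hβ0 : 0 < β := lt_of_le_of_lt zero_le h
                      have hβl : ∀ η < β, η + 1 < β := fun η hη => hβlim.add_one_lt hη
                      rw [← sub_eq_zero, ← norm_le_zero_iff]
                      apply le_of_forall_pos_le_add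
                      intro ε hε
                      obtain ⟨η, hη, hη'⟩ := S.approx_chain Tc hmono β
                        (hcont β hβ0 hβl (h2.trans hα)) x (ε / (‖f‖ + 1)) (by positivity)
                      have h7 := hη' (max η γ) (le_max_left _ _) (max_le hη.le h1)
                      have h8 := ihβ (max η γ) (max_lt hη h) (le_max_right _ _)
                        ((max_le hη.le h1).trans h2) x
                      rw [← h8, ← map_sub, zero_add]
                      calc ‖f (S.PT (Tc β) x - S.PT (Tc (max η γ)) x)‖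
                          ≤ ‖f‖ * ‖S.PT (Tc β) x - S.PT (Tc (max η γ)) x‖ := f.le_opNorm _
                        _ ≤ ‖f‖ * (ε / (‖f‖ + 1)) := by
                            rw [norm_sub_rev]
                            exact mul_le_mul_of_nonneg_left h7 (norm_nonneg _)
                        _ ≤ (‖f‖ + 1) * (ε / (‖f‖ + 1)) := by
                            apply mul_le_mul_of_nonneg_right (by linarith) (by positivity)
                        _ = ε := by
                            have : 0 < ‖f‖ + 1 := by positivity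
                            field_simp
              have h9 : f.comp (S.PT (Tc α)) = f.comp (S.PT (Tc γ)) := by
                ext x
                exact hconst α hγ.le le_rfl x
              rw [h9]
              exact ih γ hγ (hγ.le.trans hα)
            · -- countable cofinality
              obtain ⟨u, hu1, hu2⟩ := not_unc hunc
              obtain ⟨s, hs⟩ := S.common_index (fun n => f.comp (S.PT (Tc (u n))))
                (fun n => ih (u n) (hu1 n) ((hu1 n).le.trans hα))
              rw [S.mem_induced]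
              refine ⟨s, fun x => ?_⟩
              simp only [ContinuousLinearMap.comp_apply] at hs ⊢
              rw [← sub_eq_zero, ← norm_le_zero_iff]
              apply le_of_forall_pos_le_add
              intro ε hε
              obtain ⟨β₁, hβ₁, h1⟩ := S.approx_chain Tc hmono α hcα x (ε / (2 * (‖f‖ + 1)))
                (by positivity)
              obtain ⟨β₂, hβ₂, h2⟩ := S.approx_chain Tc hmono α hcα (S.P s x)
                (ε / (2 * (‖f‖ + 1))) (by positivity)
              obtain ⟨n, hn⟩ := hu2 (max β₁ β₂) (max_lt hβ₁ hβ₂)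
              have h3 := h1 (u n) ((le_max_left _ _).trans hn) (hu1 n).le
              have h4 := h2 (u n) ((le_max_right _ _).trans hn) (hu1 n).le
              have h5 : f (S.PT (Tc α) (S.P s x)) - f (S.PT (Tc α) x) =
                  f (S.PT (Tc (u n)) x - S.PT (Tc α) x) -
                    f (S.PT (Tc (u n)) (S.P s x) - S.PT (Tc α) (S.P s x)) := by
                rw [map_sub, map_sub, hs n x]
                ring
              rw [h5, zero_add]
              calc ‖f (S.PT (Tc (u n)) x - S.PT (Tc α) x) -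
                    f (S.PT (Tc (u n)) (S.P s x) - S.PT (Tc α) (S.P s x))‖
                  ≤ ‖f (S.PT (Tc (u n)) x - S.PT (Tc α) x)‖ +
                    ‖f (S.PT (Tc (u n)) (S.P s x) - S.PT (Tc α) (S.P s x))‖ := norm_sub_le _ _
                _ ≤ ‖f‖ * (ε / (2 * (‖f‖ + 1))) + ‖f‖ * (ε / (2 * (‖f‖ + 1))) := by
                    apply add_le_add
                    · exact (f.le_opNorm _).trans (mul_le_mul_of_nonneg_left h3 (norm_nonneg _))
                    · exact (f.le_opNorm _).trans (mul_le_mul_of_nonneg_left h4 (norm_nonneg _))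
                _ = 2 * ‖f‖ * (ε / (2 * (‖f‖ + 1))) := by ring
                _ ≤ 2 * (‖f‖ + 1) * (ε / (2 * (‖f‖ + 1))) := by
                    apply mul_le_mul_of_nonneg_right (by linarith) (by positivity)
                _ = ε := by
                    have : 0 < ‖f‖ + 1 := by positivity
                    field_simp
      have := hmain δ₀ le_rfl
      rwa [hTδ] at this

end step

end BSkel

theorem Dir.ext_S {Γ : Type*} [PartialOrder Γ] {T T' : Dir Γ} (h : T.S = T'.S) : T = T' := by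
  cases T; cases T'; cases h; rfl

namespace BSkel

variable {Γ : Type v} [PartialOrder Γ] (S : BSkel 𝕜 X Γ) [CompleteSpace X]

theorem good_all (Ti : Dir Γ) (hTi : Cardinal.mk Ti.S ≤ Cardinal.aleph 1)
    (H : ∀ T : Dir Γ, Ti.S ⊆ T.S → ∀ f ∈ S.induced, f.comp (S.PT T) ∈ S.induced)
    (κ : Cardinal.{v}) : ∀ T : Dir Γ, Cardinal.mk T.S = κ →
      (T.S.Countable ∨ Ti.S ⊆ T.S) → S.Good T := by
  classical
  induction κ using WellFoundedLT.induction with
  | ind κ ih =>
    intro T hκ hT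
    by_cases hTc : T.S.Countable
    · exact S.good_countable T hTc
    have hTiT : Ti.S ⊆ T.S := by
      rcases hT with h | h
      · exact absurd h hTc
      · exact h
    have hκ0 : Cardinal.aleph0 < κ := by
      by_contra h
      apply hTc
      rw [← Cardinal.le_aleph0_iff_set_countable, hκ]
      exact not_lt.mp h
    have hκ1 : Cardinal.aleph 1 ≤ κ := by
      rw [← Cardinal.succ_aleph0]
      exact Order.succ_le_of_lt hκ0
    obtain ⟨t₀, ht₀⟩ := T.ne
    obtain ⟨ρ, hρ1, hρ2⟩ := enum_set T.S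
    let B : Set Γ := if κ ≤ Cardinal.aleph 1 then ∅ else Ti.S
    let Rf : Ordinal.{v} → Set Γ := fun α => B ∪ {t | t ∈ T.S ∧ ρ t < α}
    have hRf : ∀ α β, α ≤ β → Rf α ⊆ Rf β := fun α β h =>
      union_subset_union_right _ (fun t ht => ⟨ht.1, ht.2.trans_le h⟩)
    let g : Dir Γ → Γ := fun _ => t₀
    have hlim : ∀ β < κ.ord, β + 1 < κ.ord := fun β hβ =>
      (Cardinal.isSuccLimit_ord hκ0.le).add_one_lt hβ
    have hpos : (0 : Ordinal.{v}) < κ.ord := by
      have : (0 : Ordinal.{v}).card < κ := by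
        rw [Ordinal.card_zero]
        exact (Cardinal.aleph0_pos).trans hκ0
      exact Cardinal.lt_ord.mpr this
    have hmono := chain_mono T Rf hRf g
    have hconst : ∀ α : Ordinal.{v}, {x | ∃ β, ∃ _ : β < α, x = g (chain T Rf g β)} ⊆ {t₀} := by
      rintro α x ⟨β, _, rfl⟩
      rfl
    have hBsub : ∀ α, B ∩ T.S ⊆ (chain T Rf g α).S := by
      intro α
      rw [chain_eq]
      refine Subset.trans ?_ (T.sub_cl _)
      exact inter_subset_inter_left _ (fun x hx => Or.inl (Or.inl hx))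
    have hTδ : chain T Rf g κ.ord = T := by
      apply Dir.ext_S
      apply Subset.antisymm (chain_sub T Rf g κ.ord)
      intro t ht
      rw [chain_eq]
      apply T.sub_cl
      refine ⟨Or.inl (Or.inr ⟨ht, ?_⟩), ht⟩
      rw [← hκ]
      exact hρ1 t ht
    have hTicc : ¬ κ ≤ Cardinal.aleph 1 → ∀ α, Ti.S ⊆ (chain T Rf g α).S := by
      intro h α t ht
      apply hBsub
      refine ⟨?_, hTiT ht⟩
      simp only [B, if_neg h]
      exact ht
    have hcount : κ ≤ Cardinal.aleph 1 → ∀ α < κ.ord, (chain T Rf g α).S.Countable := by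
      intro h α hα
      rw [chain_eq]
      apply Dir.cl_countable
      apply Set.Countable.union
      · apply Set.Countable.union
        · simp only [B, if_pos h]
          exact countable_empty
        · rw [← Cardinal.le_aleph0_iff_set_countable]
          refine (hρ2 α).trans ?_
          have h1 : α.card < Cardinal.aleph 1 := (Cardinal.lt_ord.mp hα).trans_le h
          rw [← Order.lt_succ_iff, Cardinal.succ_aleph0]
          exact h1
      · exact (countable_singleton t₀).mono (hconst α)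
    refine S.good_step T κ.ord (chain T Rf g) hpos hlim hmono hTδ ?_ ?_ ?_ (H T hTiT)
    · intro δ hδ hδl _
      apply chain_cont T Rf hRf g δ hδ hδl
      rintro t (ht | ⟨ht1, ht2⟩)
      · exact ⟨0, hδ, Or.inl ht⟩
      · exact ⟨ρ t + 1, hδl _ ht2, Or.inr ⟨ht1, Order.lt_add_one_iff.mpr le_rfl⟩⟩
    · intro α hα
      by_cases h : κ ≤ Cardinal.aleph 1
      · exact S.good_countable _ (hcount h α hα)
      · have hcard : Cardinal.mk (chain T Rf g α).S < κ := by
          rw [chain_eq]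
          refine (Dir.cl_card _ _).trans_lt ?_
          apply max_lt hκ0
          refine (Cardinal.mk_union_le _ _).trans_lt ?_
          apply Cardinal.add_lt_of_lt hκ0.le
          · refine (Cardinal.mk_union_le _ _).trans_lt ?_
            apply Cardinal.add_lt_of_lt hκ0.le
            · simp only [B, if_neg h]
              exact hTi.trans_lt (not_le.mp h)
            · exact (hρ2 α).trans_lt (Cardinal.lt_ord.mp hα)
          · refine (Cardinal.mk_le_mk_of_subset (hconst α)).trans_lt ?_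
            rw [Cardinal.mk_singleton]
            exact Cardinal.one_lt_aleph0.trans hκ0
        exact ih _ hcard _ rfl (Or.inr (hTicc h α))
    · intro f hf α hα
      by_cases h : κ ≤ Cardinal.aleph 1
      · rcases eq_or_lt_of_le hα with h1 | h1
        · rw [h1, hTδ]
          exact hf
        · exact S.mem_of_PT_countable _ (hcount h α h1) f
      · have h1 := H (chain T Rf g α) (hTicc h α) _ hf
        have h2 : (f.comp (S.PT T)).comp (S.PT (chain T Rf g α)) =
            f.comp (S.PT (chain T Rf g α)) := by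
          ext x
          simp only [ContinuousLinearMap.comp_apply]
          rw [S.PT_comp_right (chain_sub T Rf g α)]
        rwa [h2] at h1

end BSkel

theorem BSkel.main {Γ : Type v} [PartialOrder Γ] (S : BSkel 𝕜 X Γ) [CompleteSpace X]
    [FiniteDimensional 𝕜 ((X →L[𝕜] 𝕜) ⧸ S.induced)] :
    IsSigmaSubspace (S.induced : Set (X →L[𝕜] 𝕜)) := by
  let b := Module.finBasis 𝕜 ((X →L[𝕜] 𝕜) ⧸ S.induced)
  let q : (X →L[𝕜] 𝕜) →ₗ[𝕜] (Fin (Module.finrank 𝕜 ((X →L[𝕜] 𝕜) ⧸ S.induced)) → 𝕜) :=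
    b.equivFun.toLinearMap ∘ₗ S.induced.mkQ
  have hq : Function.Surjective q := b.equivFun.surjective.comp S.induced.mkQ_surjective
  have hqD : ∀ f, q f = 0 ↔ f ∈ S.induced := by
    intro f
    have h1 : q f = b.equivFun (S.induced.mkQ f) := rfl
    rw [h1, LinearEquiv.map_eq_zero_iff, Submodule.mkQ_apply, Submodule.Quotient.mk_eq_zero]
  obtain ⟨Ti, hTi, H⟩ := S.step_three q hq hqD
  obtain ⟨M, h1, h2, h3⟩ := S.good_all Ti hTi H _ S.top rfl (Or.inr (subset_univ _))
  have htop : ∀ x, S.PT S.top x = x := fun x => S.PT_univ S.top rfl x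
  refine ⟨M, ?_, ?_⟩
  · rw [eq_univ_iff_forall]
    intro x
    rw [← htop x]
    exact h2 x
  · ext f
    have h4 : f.comp (S.PT S.top) = f := by
      ext x
      rw [ContinuousLinearMap.comp_apply, htop]
    have h5 := h3 f
    rw [h4] at h5
    exact h5

namespace ProjSkeleton

variable (S : ProjSkeleton 𝕜 X Γ)

/-- the subskeleton of the indices whose projections are bounded by `C` -/
def sub (S : ProjSkeleton 𝕜 X Γ) (C : ℝ) (hC : ∀ s, ∃ t, s ≤ t ∧ ‖S.P t‖ ≤ C) :
    BSkel 𝕜 X {s : Γ // ‖S.P s‖ ≤ C} where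
  P s := S.P s
  proj s x := S.proj s x
  directed := by
    intro s t
    obtain ⟨r, h1, h2⟩ := S.directed s t
    obtain ⟨r', h3, h4⟩ := hC r
    exact ⟨⟨r', h4⟩, h1.trans h3, h2.trans h3⟩
  exists_sup := by
    intro u hu
    have hu' : StrictMono (fun n => (u n : Γ)) := fun a b h => hu h
    obtain ⟨s, hs⟩ := S.exists_sup _ hu'
    have hn : ‖S.P s‖ ≤ C := S.norm_sup_le _ hu'.monotone (fun n => (u n).2) s hs
    refine ⟨⟨s, hn⟩, ?_, ?_⟩
    · rintro _ ⟨n, rfl⟩
      exact hs.1 ⟨n, rfl⟩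
    · intro b hb
      apply hs.2
      rintro _ ⟨n, rfl⟩
      exact hb ⟨n, rfl⟩
  separable s := S.separable s
  union := by
    rw [eq_univ_iff_forall]
    intro x
    obtain ⟨s, hs⟩ := S.exists_fix x
    obtain ⟨t, h1, h2⟩ := hC s
    exact mem_iUnion.mpr ⟨⟨t, h2⟩, x, S.fix_mono h1 hs⟩
  compat s t h := S.compat s t h
  closure_union := by
    intro u hu s hs
    have hu' : StrictMono (fun n => (u n : Γ)) := fun a b h => hu h
    obtain ⟨r, hr⟩ := S.exists_sup _ hu'
    have hn : ‖S.P r‖ ≤ C := S.norm_sup_le _ hu'.monotone (fun n => (u n).2) r hr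
    have hrs : r = s := by
      apply le_antisymm
      · apply hr.2
        rintro _ ⟨n, rfl⟩
        exact hs.1 ⟨n, rfl⟩
      · have : s ≤ ⟨r, hn⟩ := by
          apply hs.2
          rintro _ ⟨n, rfl⟩
          exact hr.1 ⟨n, rfl⟩
        exact this
    rw [← hrs]
    exact S.closure_union _ hu' r hr
  C := C
  bound s := s.2

theorem induced_sub (C : ℝ) (hC : ∀ s, ∃ t, s ≤ t ∧ ‖S.P t‖ ≤ C) :
    (S.sub C hC).induced = S.induced := by
  ext f
  rw [ProjSkeleton.mem_induced, ProjSkeleton.mem_induced]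
  constructor
  · rintro ⟨s, hs⟩
    exact ⟨s, hs⟩
  · rintro ⟨s, hs⟩
    obtain ⟨t, h1, h2⟩ := hC s
    refine ⟨⟨t, h2⟩, fun x => ?_⟩
    change f (S.P t x) = f x
    rw [← hs (S.P t x), S.comp_left h1, hs]

end ProjSkeleton

/-- **Full answer to Q1.** If the subspace of `X^*` induced by a projectional skeleton on the
Banach space `X` has finite codimension in `X^*`, then it is a `Σ`-subspace of `X^*`. -/
theorem main_result [CompleteSpace X] (S : ProjSkeleton 𝕜 X Γ)
    (hfin : FiniteDimensional 𝕜 ((X →L[𝕜] 𝕜) ⧸ S.induced)) :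
    IsSigmaSubspace (S.induced : Set (X →L[𝕜] 𝕜)) := by
  obtain ⟨C, hC⟩ := S.exists_cofinal_bound
  have h := S.induced_sub C hC
  rw [← h] at hfin ⊢
  exact (S.sub C hC).main

end Pool.Agent.SkelFC
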